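import Mathlib

set_option autoImplicit false

namespace Pool.Agent.MarginalPolymatroid

open Finset

/-!
# Marginal scenarios and polymatroids: definitions for MP_e7d137_lc
-/

variable {α : Type*} [DecidableEq α]

/-- `f` is a polymatroid: normalised, nonnegative, monotone and submodular on all subsets. -/
structure IsPolymatroid (f : Finset α → ℝ) : Prop where
  empty : f ∅ = 0
  nonneg : ∀ S, 0 ≤ f S
  mono : ∀ S T, S ⊆ T → f S ≤ f T
  submod : ∀ S T, f (S ∪ T) + f (S ∩ T) ≤ f S + f T

/-- `M` is a marginal scenario: it contains `∅` and is closed under taking subsets. -/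
def IsScenario (M : Finset (Finset α)) : Prop :=
  ∅ ∈ M ∧ ∀ S ∈ M, ∀ T, T ⊆ S → T ∈ M

/-- `g` restricted to `M` is a polymatroid on the scenario `M` (only the values of `g` on members
of `M` matter): normalised, nonnegative, monotone on `M`, and submodular for all `S, T ∈ M` with
`S ∪ T ∈ M`. -/
structure IsPartialPolymatroid (M : Finset (Finset α)) (g : Finset α → ℝ) : Prop where
  empty : g ∅ = 0
  nonneg : ∀ S ∈ M, 0 ≤ g S
  mono : ∀ S ∈ M, ∀ T ∈ M, S ⊆ T → g S ≤ g T
  submod : ∀ S ∈ M, ∀ T ∈ M, S ∪ T ∈ M → g (S ∪ T) + g (S ∩ T) ≤ g S + g T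

/-- `g` is non-contextual: it is the restriction to `M` of a polymatroid. -/
def NonContextual (M : Finset (Finset α)) (g : Finset α → ℝ) : Prop :=
  ∃ f : Finset α → ℝ, IsPolymatroid f ∧ ∀ S ∈ M, f S = g S

/-- every polymatroid on the scenario `M` is non-contextual. -/
def AllExtend (M : Finset (Finset α)) : Prop :=
  ∀ g : Finset α → ℝ, IsPartialPolymatroid M g → NonContextual M g

/-- facets: inclusion-maximal members of `M`. -/
def IsFacet (M : Finset (Finset α)) (F : Finset α) : Prop :=
  F ∈ M ∧ ∀ G ∈ M, F ⊆ G → F = G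

/-- `M` is Vorob'ev-regular: its facets can be listed (without repetition) as `F 0, ..., F (k-1)`
so that for each `j > 0` the set `F j ∩ (F 0 ∪ ... ∪ F (j-1))` is contained in some `F i`,
`i < j`. -/
def VorobevRegular (M : Finset (Finset α)) : Prop :=
  ∃ (k : ℕ) (F : Fin k → Finset α), Function.Injective F ∧ (∀ S, IsFacet M S ↔ ∃ j, F j = S) ∧
    ∀ j : Fin k, 0 < (j : ℕ) → ∃ i, i < j ∧ F j ∩ (univ.filter (fun l => l < j)).biUnion F ⊆ F i

end Pool.Agent.MarginalPolymatroid
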