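import Pool.Agent.Lib_helper88.MarginalDefs

set_option autoImplicit false
set_option linter.unusedSimpArgs false

/-!
# Proof of the characterization for MP_e7d137_lc

Necessity: `conformal` (a clique all of whose pairs are faces is a face), `separator_gadget`
and `dirac` (elimination order), `rip_of_elim` (running intersection order) and `gadget5`
(the Ingleton-violating polymatroid on `{v1,v2,v3,v4}` against a common-information point `p`).
Sufficiency: `amalgam`, `lift_triangle` (a triangle together with the common information of its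
pairs) and the induction `glue_list` over a running intersection order.
-/

namespace Pool.Agent.MarginalPolymatroid

open Finset

section Blocks

variable {β : Type*} [DecidableEq β]

lemma IsPolymatroid.add {f g : Finset β → ℝ} (hf : IsPolymatroid f) (hg : IsPolymatroid g) :
    IsPolymatroid (fun S => f S + g S) where
  empty := by simp [hf.empty, hg.empty]
  nonneg S := add_nonneg (hf.nonneg S) (hg.nonneg S)
  mono S T h := add_le_add (hf.mono S T h) (hg.mono S T h)
  submod S T := by
    have a := hf.submod S T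
    have b := hg.submod S T
    linarith

lemma IsPolymatroid.smul {f : Finset β → ℝ} (hf : IsPolymatroid f) {c : ℝ} (hc : 0 ≤ c) :
    IsPolymatroid (fun S => c * f S) where
  empty := by simp [hf.empty]
  nonneg S := mul_nonneg hc (hf.nonneg S)
  mono S T h := mul_le_mul_of_nonneg_left (hf.mono S T h) hc
  submod S T := by
    have a := mul_le_mul_of_nonneg_left (hf.submod S T) hc
    linarith

open Classical in
/-- indicator of hitting a predicate -/
noncomputable def hit (P : β → Prop) (S : Finset β) : ℝ := if ∃ e ∈ S, P e then 1 else 0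

lemma hit_poly (P : β → Prop) : IsPolymatroid (hit P) where
  empty := by simp [hit]
  nonneg S := by unfold hit; split_ifs <;> norm_num
  mono S T h := by
    unfold hit
    split_ifs with h1 h2 h2
    · exact le_rfl
    · exact absurd (h1.imp fun e he => ⟨h he.1, he.2⟩) h2
    · norm_num
    · exact le_rfl
  submod S T := by
    unfold hit
    by_cases hS : ∃ e ∈ S, P e
    · by_cases hT : ∃ e ∈ T, P e
      · rw [if_pos hS, if_pos hT]
        split_ifs <;> norm_num
      · have : ¬ ∃ e ∈ S ∩ T, P e := by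
          rintro ⟨e, he, hp⟩
          exact hT ⟨e, (Finset.mem_inter.mp he).2, hp⟩
        rw [if_pos hS, if_neg hT, if_neg this]
        split_ifs <;> norm_num
    · have h1 : ¬ ∃ e ∈ S ∩ T, P e := by
        rintro ⟨e, he, hp⟩
        exact hS ⟨e, (Finset.mem_inter.mp he).1, hp⟩
      rw [if_neg hS, if_neg h1]
      by_cases hT : ∃ e ∈ T, P e
      · rw [if_pos hT]
        split_ifs <;> norm_num
      · have : ¬ ∃ e ∈ S ∪ T, P e := by
          rintro ⟨e, he, hp⟩
          rcases Finset.mem_union.mp he with he | he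
          · exact hS ⟨e, he, hp⟩
          · exact hT ⟨e, he, hp⟩
        simp [if_neg hT, if_neg this]

lemma minCard_poly (k : ℕ) : IsPolymatroid (fun S : Finset β => ((min k S.card : ℕ) : ℝ)) where
  empty := by simp
  nonneg S := by positivity
  mono S T h := by
    have := Finset.card_le_card h
    have h2 : min k S.card ≤ min k T.card := by omega
    exact_mod_cast h2
  submod S T := by
    have h1 := Finset.card_union_add_card_inter S T
    have h2 := Finset.card_le_card (Finset.subset_union_left (s₁ := S) (s₂ := T))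
    have h3 := Finset.card_le_card (Finset.subset_union_right (s₁ := S) (s₂ := T))
    have h4 : min k (S ∪ T).card + min k (S ∩ T).card ≤ min k S.card + min k T.card := by omega
    exact_mod_cast h4

lemma IsPolymatroid.comap {γ : Type*} [DecidableEq γ] {f : Finset β → ℝ} (hf : IsPolymatroid f)
    (φ : Finset γ → Finset β) (h0 : φ ∅ = ∅) (hu : ∀ S T, φ (S ∪ T) = φ S ∪ φ T)
    (hi : ∀ S T, φ (S ∩ T) = φ S ∩ φ T) : IsPolymatroid (fun S => f (φ S)) where
  empty := by simp [h0, hf.empty]
  nonneg S := hf.nonneg _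
  mono S T h := by
    apply hf.mono
    have := hu S T
    rw [Finset.union_eq_right.mpr h] at this
    rw [this]
    exact Finset.subset_union_left
  submod S T := by
    show f (φ (S ∪ T)) + f (φ (S ∩ T)) ≤ _
    rw [hu, hi]
    exact hf.submod _ _

end Blocks

variable {α : Type*} [DecidableEq α]

/-- the copy of `S` inside the extended ground set. -/
def emb (S : Finset α) : Finset (Finset α) := S.image (fun v => {v})

lemma mem_emb {S : Finset α} {e : Finset α} : e ∈ emb S ↔ ∃ v ∈ S, {v} = e := by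
  simp [emb]

lemma singleton_mem_emb {S : Finset α} {v : α} : {v} ∈ emb S ↔ v ∈ S := by
  simp [emb]

lemma emb_empty : emb (∅ : Finset α) = ∅ := by simp [emb]

lemma emb_union (S T : Finset α) : emb (S ∪ T) = emb S ∪ emb T := by
  simp [emb, Finset.image_union]

lemma emb_inter (S T : Finset α) : emb (S ∩ T) = emb S ∩ emb T := by
  ext e
  simp only [Finset.mem_inter, mem_emb]
  constructor
  · rintro ⟨v, ⟨h1, h2⟩, rfl⟩
    exact ⟨⟨v, h1, rfl⟩, ⟨v, h2, rfl⟩⟩
  · rintro ⟨⟨v, h1, rfl⟩, ⟨w, h2, h⟩⟩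
    have := Finset.singleton_injective h
    subst this
    exact ⟨w, ⟨h1, h2⟩, rfl⟩

/-- `g` is a polymatroid on the subsets of `F`. -/
structure PolyOn (F : Finset α) (g : Finset α → ℝ) : Prop where
  empty : g ∅ = 0
  nonneg : ∀ S, S ⊆ F → 0 ≤ g S
  mono : ∀ S T, S ⊆ T → T ⊆ F → g S ≤ g T
  submod : ∀ S T, S ⊆ F → T ⊆ F → g (S ∪ T) + g (S ∩ T) ≤ g S + g T

lemma subset_triple {a b c : α} {S : Finset α} (h : S ⊆ {a, b, c}) :
    S = ∅ ∨ S = {a} ∨ S = {b} ∨ S = {c} ∨ S = {a, b} ∨ S = {a, c} ∨ S = {b, c} ∨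
      S = {a, b, c} := by
  have hx : ∀ x, x ∈ S → x = a ∨ x = b ∨ x = c := by
    intro x hx
    simpa using h hx
  by_cases ha : a ∈ S <;> by_cases hb : b ∈ S <;> by_cases hc : c ∈ S
  · right; right; right; right; right; right; right
    ext x
    simp only [Finset.mem_insert, Finset.mem_singleton]
    exact ⟨hx x, by rintro (rfl | rfl | rfl) <;> assumption⟩
  · right; right; right; right; left
    ext x
    simp only [Finset.mem_insert, Finset.mem_singleton]
    refine ⟨fun q => ?_, by rintro (rfl | rfl) <;> assumption⟩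
    rcases hx x q with e | e | e
    · exact Or.inl e
    · exact Or.inr e
    · exact absurd (e ▸ q) hc
  · right; right; right; right; right; left
    ext x
    simp only [Finset.mem_insert, Finset.mem_singleton]
    refine ⟨fun q => ?_, by rintro (rfl | rfl) <;> assumption⟩
    rcases hx x q with e | e | e
    · exact Or.inl e
    · exact absurd (e ▸ q) hb
    · exact Or.inr e
  · right; left
    ext x
    simp only [Finset.mem_singleton]
    refine ⟨fun q => ?_, by rintro rfl; assumption⟩
    rcases hx x q with e | e | e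
    · exact e
    · exact absurd (e ▸ q) hb
    · exact absurd (e ▸ q) hc
  · right; right; right; right; right; right; left
    ext x
    simp only [Finset.mem_insert, Finset.mem_singleton]
    refine ⟨fun q => ?_, by rintro (rfl | rfl) <;> assumption⟩
    rcases hx x q with e | e | e
    · exact absurd (e ▸ q) ha
    · exact Or.inl e
    · exact Or.inr e
  · right; right; left
    ext x
    simp only [Finset.mem_singleton]
    refine ⟨fun q => ?_, by rintro rfl; assumption⟩
    rcases hx x q with e | e | e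
    · exact absurd (e ▸ q) ha
    · exact e
    · exact absurd (e ▸ q) hc
  · right; right; right; left
    ext x
    simp only [Finset.mem_singleton]
    refine ⟨fun q => ?_, by rintro rfl; assumption⟩
    rcases hx x q with e | e | e
    · exact absurd (e ▸ q) ha
    · exact absurd (e ▸ q) hb
    · exact e
  · left
    apply Finset.eq_empty_of_forall_notMem
    intro x q
    rcases hx x q with e | e | e
    · exact ha (e ▸ q)
    · exact hb (e ▸ q)
    · exact hc (e ▸ q)

/-- preimage of a set of the extended ground set in `F`. -/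
def pre (F : Finset α) (S : Finset (Finset α)) : Finset α := F.filter (fun v => {v} ∈ S)

lemma pre_empty (F : Finset α) : pre F ∅ = ∅ := by simp [pre]

lemma pre_union (F : Finset α) (S T : Finset (Finset α)) : pre F (S ∪ T) = pre F S ∪ pre F T := by
  ext x
  simp only [pre, Finset.mem_filter, Finset.mem_union]
  tauto

lemma pre_inter (F : Finset α) (S T : Finset (Finset α)) : pre F (S ∩ T) = pre F S ∩ pre F T := by
  ext x
  simp only [pre, Finset.mem_filter, Finset.mem_inter]
  tauto

lemma pre_emb {F S : Finset α} (h : S ⊆ F) : pre F (emb S) = S := by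
  ext x
  simp only [pre, Finset.mem_filter, singleton_mem_emb]
  exact ⟨fun h => h.2, fun hx => ⟨h hx, hx⟩⟩

lemma pre_subset (F : Finset α) (S : Finset (Finset α)) : pre F S ⊆ F := Finset.filter_subset _ _

/-- any polymatroid on `F` lifts to the extended ground set. -/
lemma lift_simple {F : Finset α} {g : Finset α → ℝ} (hg : PolyOn F g) :
    ∃ f : Finset (Finset α) → ℝ, IsPolymatroid f ∧ ∀ S, S ⊆ F → f (emb S) = g S := by
  refine ⟨fun S => g (pre F S), ⟨?_, ?_, ?_, ?_⟩, ?_⟩
  · simp [pre_empty, hg.empty]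
  · intro S; exact hg.nonneg _ (pre_subset _ _)
  · intro S T h
    apply hg.mono _ _ _ (pre_subset _ _)
    have := pre_union F S T
    rw [Finset.union_eq_right.mpr h] at this
    rw [this]; exact Finset.subset_union_left
  · intro S T
    show g (pre F (S ∪ T)) + g (pre F (S ∩ T)) ≤ _
    rw [pre_union, pre_inter]
    exact hg.submod _ _ (pre_subset _ _) (pre_subset _ _)
  · intro S hS
    show g (pre F (emb S)) = g S
    rw [pre_emb hS]

/-- predicate: the nonempty set `e` lies inside the atom `A`. -/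
def inside (A : Finset α) (e : Finset α) : Prop := e.Nonempty ∧ e ⊆ A

/-- triangles lift together with the common information of each of their pairs. -/
lemma lift_triangle {a b c : α} (hab : a ≠ b) (hac : a ≠ c) (hbc : b ≠ c) {g : Finset α → ℝ}
    (hg : PolyOn {a, b, c} g) :
    ∃ f : Finset (Finset α) → ℝ, IsPolymatroid f ∧ (∀ S, S ⊆ {a, b, c} → f (emb S) = g S) ∧
      ∀ x ∈ ({a, b, c} : Finset α), ∀ y ∈ ({a, b, c} : Finset α), x ≠ y →
        f {{x, y}} = g {x} + g {y} - g {x, y} ∧ f {{x}, {x, y}} = g {x} := by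
  classical
  set I : ℝ := g {a} + g {b} + g {c} - g {a, b} - g {a, c} - g {b, c} + g {a, b, c} with hI
  set m : ℝ := max I 0 with hm
  set d : ℝ := max (-I) 0 with hd
  have hmd : m - d = I := by
    rcases le_total 0 I with h | h
    · rw [hm, hd, max_eq_left h, max_eq_right (by linarith)]; ring
    · rw [hm, hd, max_eq_right h, max_eq_left (by linarith)]; ring
  have hm0 : 0 ≤ m := le_max_right _ _
  have hd0 : 0 ≤ d := le_max_right _ _
  -- submodularity facts
  have sab : g {a, b} ≤ g {a} + g {b} := by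
    have := hg.submod {a} {b} (by simp) (by simp)
    have e1 : ({a} : Finset α) ∪ {b} = {a, b} := rfl
    have e2 : ({a} : Finset α) ∩ {b} = ∅ := by
      ext x; simp; rintro rfl; exact hab
    rw [e1, e2, hg.empty] at this
    linarith
  have sac : g {a, c} ≤ g {a} + g {c} := by
    have := hg.submod {a} {c} (by simp) (by simp)
    have e1 : ({a} : Finset α) ∪ {c} = {a, c} := rfl
    have e2 : ({a} : Finset α) ∩ {c} = ∅ := by
      ext x; simp; rintro rfl; exact hac
    rw [e1, e2, hg.empty] at this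
    linarith
  have sbc : g {b, c} ≤ g {b} + g {c} := by
    have := hg.submod {b} {c} (by simp) (by simp)
    have e1 : ({b} : Finset α) ∪ {c} = {b, c} := rfl
    have e2 : ({b} : Finset α) ∩ {c} = ∅ := by
      ext x; simp; rintro rfl; exact hbc
    rw [e1, e2, hg.empty] at this
    linarith
  have ta : g {a, b, c} + g {a} ≤ g {a, b} + g {a, c} := by
    have := hg.submod {a, b} {a, c} (by intro x; simp; tauto) (by intro x; simp; tauto)
    have e1 : ({a, b} : Finset α) ∪ {a, c} = {a, b, c} := by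
      ext x; simp only [Finset.mem_union, Finset.mem_insert, Finset.mem_singleton]; tauto
    have e2 : ({a, b} : Finset α) ∩ {a, c} = {a} := by
      ext x; simp only [Finset.mem_inter, Finset.mem_insert, Finset.mem_singleton]
      constructor
      · rintro ⟨h1 | h1, h2 | h2⟩ <;> first | assumption | (exact absurd (h1.symm.trans h2) hbc)
      · rintro rfl; simp
    rw [e1, e2] at this
    linarith
  have tb : g {a, b, c} + g {b} ≤ g {a, b} + g {b, c} := by
    have := hg.submod {a, b} {b, c} (by intro x; simp; tauto) (by intro x; simp; tauto)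
    have e1 : ({a, b} : Finset α) ∪ {b, c} = {a, b, c} := by
      ext x; simp only [Finset.mem_union, Finset.mem_insert, Finset.mem_singleton]; tauto
    have e2 : ({a, b} : Finset α) ∩ {b, c} = {b} := by
      ext x; simp only [Finset.mem_inter, Finset.mem_insert, Finset.mem_singleton]
      constructor
      · rintro ⟨h1 | h1, h2 | h2⟩ <;> first | assumption | (exact absurd (h1.symm.trans h2) hac)
      · rintro rfl; simp
    rw [e1, e2] at this
    linarith
  have tc : g {a, b, c} + g {c} ≤ g {a, c} + g {b, c} := by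
    have := hg.submod {a, c} {b, c} (by intro x; simp; tauto) (by intro x; simp; tauto)
    have e1 : ({a, c} : Finset α) ∪ {b, c} = {a, b, c} := by
      ext x; simp only [Finset.mem_union, Finset.mem_insert, Finset.mem_singleton]; tauto
    have e2 : ({a, c} : Finset α) ∩ {b, c} = {c} := by
      ext x; simp only [Finset.mem_inter, Finset.mem_insert, Finset.mem_singleton]
      constructor
      · rintro ⟨h1 | h1, h2 | h2⟩ <;> first | assumption | (exact absurd (h1.symm.trans h2) hab)
      · rintro rfl; simp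
    rw [e1, e2] at this
    linarith
  have ma : g {b, c} ≤ g {a, b, c} := hg.mono _ _ (by intro x; simp; tauto) (le_refl _)
  have mb : g {a, c} ≤ g {a, b, c} := hg.mono _ _ (by intro x; simp; tauto) (le_refl _)
  have mc : g {a, b} ≤ g {a, b, c} := hg.mono _ _ (by intro x; simp; tauto) (le_refl _)
  have wab : 0 ≤ g {a} + g {b} - g {a, b} - m := by
    rcases le_total 0 I with h | h
    · rw [hm, max_eq_left h]; linarith
    · rw [hm, max_eq_right h]; linarith
  have wac : 0 ≤ g {a} + g {c} - g {a, c} - m := by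
    rcases le_total 0 I with h | h
    · rw [hm, max_eq_left h]; linarith
    · rw [hm, max_eq_right h]; linarith
  have wbc : 0 ≤ g {b} + g {c} - g {b, c} - m := by
    rcases le_total 0 I with h | h
    · rw [hm, max_eq_left h]; linarith
    · rw [hm, max_eq_right h]; linarith
  set f : Finset (Finset α) → ℝ := fun S =>
    (g {a, b, c} - g {b, c}) * hit (inside {a}) S +
    ((g {a, b, c} - g {a, c}) * hit (inside {b}) S +
    ((g {a, b, c} - g {a, b}) * hit (inside {c}) S +
    ((g {a} + g {b} - g {a, b} - m) * hit (inside {a, b}) S +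
    ((g {a} + g {c} - g {a, c} - m) * hit (inside {a, c}) S +
    ((g {b} + g {c} - g {b, c} - m) * hit (inside {b, c}) S +
    (m * hit (inside {a, b, c}) S +
    d * ((min 2 (pre {a, b, c} S).card : ℕ) : ℝ))))))) with hf
  have hfpoly : IsPolymatroid f := by
    refine ((hit_poly _).smul (by linarith)).add (((hit_poly _).smul (by linarith)).add
      (((hit_poly _).smul (by linarith)).add (((hit_poly _).smul wab).add
      (((hit_poly _).smul wac).add (((hit_poly _).smul wbc).add
      (((hit_poly _).smul hm0).add ?_))))))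
    exact IsPolymatroid.smul
      ((minCard_poly (β := α) 2).comap (pre {a, b, c}) (pre_empty _) (pre_union _) (pre_inter _)) hd0
  have hit_emb : ∀ A S : Finset α, hit (inside A) (emb S) = if (∃ v ∈ S, v ∈ A) then 1 else 0 := by
    intro A S
    unfold hit
    congr 1
    apply propext
    constructor
    · rintro ⟨e, he, h1, h2⟩
      obtain ⟨v, hv, rfl⟩ := mem_emb.mp he
      exact ⟨v, hv, h2 (by simp)⟩
    · rintro ⟨v, hv, hA⟩
      exact ⟨{v}, singleton_mem_emb.mpr hv, by simp, by simpa using hA⟩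
  refine ⟨f, hfpoly, ?_, ?_⟩
  · intro S hS
    have hca : ({a} : Finset α).card = 1 := by simp
    have hcab : ({a, b} : Finset α).card = 2 := Finset.card_pair hab
    have hcac : ({a, c} : Finset α).card = 2 := Finset.card_pair hac
    have hcbc : ({b, c} : Finset α).card = 2 := Finset.card_pair hbc
    have hcabc : ({a, b, c} : Finset α).card = 3 := by
      rw [Finset.card_insert_of_notMem (by simp [hab, hac]), Finset.card_pair hbc]
    simp only [hf, hit_emb, pre_emb hS]
    rcases subset_triple hS with rfl | rfl | rfl | rfl | rfl | rfl | rfl | rfl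
    · simp [hg.empty]
    · simp [hab, hac]; linarith
    · simp [hab.symm, hbc]; linarith
    · simp [hac.symm, hbc.symm]; linarith
    · simp [hab, hac, hab.symm, hac.symm, hbc, hbc.symm, hcab]; linarith
    · simp [hab, hac, hab.symm, hac.symm, hbc, hbc.symm, hcac]; linarith
    · simp [hab, hac, hab.symm, hac.symm, hbc, hbc.symm, hcbc]; linarith
    · simp [hab, hac, hbc, hab.symm, hac.symm, hbc.symm, hcabc]; linarith
  · have hsing : ∀ v : α, pre {a, b, c} {({v} : Finset α)} = ({a, b, c} : Finset α).filter (fun w => w = v) := by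
      intro v; ext w; simp [pre]
    have hpair : ∀ A x y, hit (inside A) {({x, y} : Finset α)} = if (x ∈ A ∧ y ∈ A) then 1 else 0 := by
      intro A x y
      unfold hit
      congr 1
      apply propext
      simp [inside, Finset.insert_subset_iff]
    have hpair2 : ∀ A x y, hit (inside A) {({x} : Finset α), ({x, y} : Finset α)} =
        if (x ∈ A) then 1 else 0 := by
      intro A x y
      unfold hit
      congr 1
      apply propext
      simp [inside, Finset.insert_subset_iff]
      tauto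
    have hp0 : ∀ x y : α, x ≠ y → pre {a, b, c} {({x, y} : Finset α)} = ∅ := by
      intro x y hxy
      apply Finset.eq_empty_of_forall_notMem
      intro z hz
      simp only [pre, Finset.mem_filter, Finset.mem_singleton] at hz
      have h1 : x ∈ ({z} : Finset α) := by rw [hz.2]; simp
      have h2 : y ∈ ({z} : Finset α) := by rw [hz.2]; simp
      simp only [Finset.mem_singleton] at h1 h2
      exact hxy (h1.trans h2.symm)
    have hp1 : ∀ x y : α, x ∈ ({a, b, c} : Finset α) → x ≠ y →
        pre {a, b, c} {({x} : Finset α), ({x, y} : Finset α)} = {x} := by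
      intro x y hx hxy
      ext z
      simp only [pre, Finset.mem_filter, Finset.mem_singleton, Finset.mem_insert]
      constructor
      · rintro ⟨_, h | h⟩
        · exact Finset.singleton_injective h
        · exfalso
          have h1 : x ∈ ({z} : Finset α) := by rw [h]; simp
          have h2 : y ∈ ({z} : Finset α) := by rw [h]; simp
          simp only [Finset.mem_singleton] at h1 h2
          exact hxy (h1.trans h2.symm)
      · rintro rfl
        exact ⟨by simpa using hx, Or.inl rfl⟩
    intro x hx y hy hxy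
    have hx' : x = a ∨ x = b ∨ x = c := by simpa using hx
    have hy' : y = a ∨ y = b ∨ y = c := by simpa using hy
    have hba : ({b, a} : Finset α) = {a, b} := Finset.pair_comm _ _
    have hca : ({c, a} : Finset α) = {a, c} := Finset.pair_comm _ _
    have hcb : ({c, b} : Finset α) = {b, c} := Finset.pair_comm _ _
    simp only [hf, hpair, hpair2, hp0 x y hxy, hp1 x y hx hxy]
    rcases hx' with rfl | rfl | rfl <;> rcases hy' with rfl | rfl | rfl
    · exact absurd rfl hxy
    · simp [hab, hac, hab.symm, hac.symm, hbc, hbc.symm]; linarith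
    · simp [hab, hac, hab.symm, hac.symm, hbc, hbc.symm]; linarith
    · rw [hba]; simp [hab, hac, hab.symm, hac.symm, hbc, hbc.symm]; constructor <;> linarith
    · exact absurd rfl hxy
    · simp [hab, hac, hab.symm, hac.symm, hbc, hbc.symm]; linarith
    · rw [hca]; simp [hab, hac, hab.symm, hac.symm, hbc, hbc.symm]; constructor <;> linarith
    · rw [hcb]; simp [hab, hac, hab.symm, hac.symm, hbc, hbc.symm]; constructor <;> linarith
    · exact absurd rfl hxy

lemma amalgam {β : Type*} [DecidableEq β] [Fintype β] {f₁ f₂ : Finset β → ℝ}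
    (h₁ : IsPolymatroid f₁) (h₂ : IsPolymatroid f₂) (U₁ U₂ : Finset β)
    (L : Set (Finset β))
    (hLsub : ∀ A ∈ L, A ⊆ U₁ ∩ U₂)
    (hLtop : U₁ ∩ U₂ ∈ L)
    (hLsup : ∀ A ∈ L, ∀ B ∈ L, A ∪ B ∈ L) (hLinf : ∀ A ∈ L, ∀ B ∈ L, A ∩ B ∈ L)
    (hagree : ∀ A, A ⊆ U₁ ∩ U₂ → f₁ A = f₂ A)
    (hmod : ∀ A ∈ L, ∀ B ∈ L, f₁ A + f₁ B ≤ f₁ (A ∪ B) + f₁ (A ∩ B))
    (hcl : ∀ A, A ⊆ U₁ ∩ U₂ → ∃ A' ∈ L, A ⊆ A' ∧ f₁ A' = f₁ A) :
    ∃ f : Finset β → ℝ, IsPolymatroid f ∧
      (∀ S, S ⊆ U₁ → f S = f₁ S) ∧ (∀ S, S ⊆ U₂ → f S = f₂ S) := by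
  classical
  set h : Finset β → ℝ := fun T => f₁ (T ∩ U₁) + f₂ (T ∩ U₂) - f₁ (T ∩ (U₁ ∩ U₂)) with hh
  have hne : ∀ S : Finset β,
      ((univ : Finset (Finset β)).filter (fun T => S ⊆ T ∧ T ∩ (U₁ ∩ U₂) ∈ L)).Nonempty := by
    intro S
    refine ⟨univ, ?_⟩
    simp [hLtop]
  set f : Finset β → ℝ := fun S =>
    ((univ : Finset (Finset β)).filter (fun T => S ⊆ T ∧ T ∩ (U₁ ∩ U₂) ∈ L)).inf' (hne S) h with hf
  have hle : ∀ S T : Finset β, S ⊆ T → T ∩ (U₁ ∩ U₂) ∈ L → f S ≤ h T := by
    intro S T hST hT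
    exact Finset.inf'_le _ (by simp [hST, hT])
  have hex : ∀ S : Finset β, ∃ T, S ⊆ T ∧ T ∩ (U₁ ∩ U₂) ∈ L ∧ f S = h T := by
    intro S
    obtain ⟨T, hT, hTe⟩ := Finset.exists_mem_eq_inf' (hne S) h
    rw [Finset.mem_filter] at hT
    exact ⟨T, hT.2.1, hT.2.2, hTe⟩
  have hKU1 : ∀ T : Finset β, T ∩ (U₁ ∩ U₂) ⊆ T ∩ U₁ := by
    intro T; exact Finset.inter_subset_inter_left Finset.inter_subset_left
  have hKU2 : ∀ T : Finset β, T ∩ (U₁ ∩ U₂) ⊆ T ∩ U₂ := by
    intro T; exact Finset.inter_subset_inter_left Finset.inter_subset_right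
  have hlow1 : ∀ T : Finset β, f₁ (T ∩ U₁) ≤ h T := by
    intro T
    have e1 := hagree (T ∩ (U₁ ∩ U₂)) Finset.inter_subset_right
    have e2 := h₂.mono _ _ (hKU2 T)
    simp only [hh]
    linarith
  have hlow2 : ∀ T : Finset β, f₂ (T ∩ U₂) ≤ h T := by
    intro T
    have e2 := h₁.mono _ _ (hKU1 T)
    simp only [hh]
    linarith
  have hup : ∀ (S A' : Finset β), A' ∈ L → S ∩ (U₁ ∩ U₂) ⊆ A' → 
      (S ∪ A') ∩ (U₁ ∩ U₂) = A' := by
    intro S A' hA' hSA
    rw [Finset.union_inter_distrib_right, Finset.inter_eq_left.mpr (hLsub A' hA'),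
      Finset.union_eq_right.mpr hSA]
  refine ⟨f, ⟨?_, ?_, ?_, ?_⟩, ?_, ?_⟩
  · -- empty
    obtain ⟨A', hA', -, hA'e⟩ := hcl ∅ (Finset.empty_subset _)
    have hA1 : A' ∩ U₁ = A' :=
      Finset.inter_eq_left.mpr ((hLsub A' hA').trans Finset.inter_subset_left)
    have hA2 : A' ∩ U₂ = A' :=
      Finset.inter_eq_left.mpr ((hLsub A' hA').trans Finset.inter_subset_right)
    have hA3 : A' ∩ (U₁ ∩ U₂) = A' := Finset.inter_eq_left.mpr (hLsub A' hA')
    have hle0 := hle ∅ A' (Finset.empty_subset _) (by rw [hA3]; exact hA')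
    have : h A' = 0 := by
      simp only [hh]
      rw [hA1, hA2, hA3, ← hagree A' (hLsub A' hA'), hA'e, h₁.empty]
      ring
    obtain ⟨T, _, _, hT⟩ := hex ∅
    have h0 := hlow1 T
    have h1 := h₁.nonneg (T ∩ U₁)
    linarith
  · intro S
    obtain ⟨T, _, _, hT⟩ := hex S
    have h0 := hlow1 T
    have h1 := h₁.nonneg (T ∩ U₁)
    linarith
  · intro S S' hS
    obtain ⟨T, hT1, hT2, hT⟩ := hex S'
    rw [hT]
    exact hle S T (hS.trans hT1) hT2
  · intro S₁ S₂
    obtain ⟨T₁, a1, b1, c1⟩ := hex S₁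
    obtain ⟨T₂, a2, b2, c2⟩ := hex S₂
    have u := hle (S₁ ∪ S₂) (T₁ ∪ T₂) (Finset.union_subset_union a1 a2)
      (by rw [Finset.union_inter_distrib_right]; exact hLsup _ b1 _ b2)
    have i := hle (S₁ ∩ S₂) (T₁ ∩ T₂) (Finset.inter_subset_inter a1 a2)
      (by rw [Finset.inter_inter_distrib_right]; exact hLinf _ b1 _ b2)
    have s1 := h₁.submod (T₁ ∩ U₁) (T₂ ∩ U₁)
    have s2 := h₂.submod (T₁ ∩ U₂) (T₂ ∩ U₂)
    have s3 := hmod _ b1 _ b2
    rw [← Finset.union_inter_distrib_right, ← Finset.inter_inter_distrib_right] at s1 s2 s3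
    rw [c1, c2]
    simp only [hh] at u i ⊢
    linarith
  · intro S hS
    apply le_antisymm
    · obtain ⟨A', hA', hAA, hA'e⟩ := hcl (S ∩ (U₁ ∩ U₂)) Finset.inter_subset_right
      have e3 := hup S A' hA' hAA
      have hA1 : A' ⊆ U₁ := (hLsub A' hA').trans Finset.inter_subset_left
      have hA2 : A' ⊆ U₂ := (hLsub A' hA').trans Finset.inter_subset_right
      have e1 : (S ∪ A') ∩ U₁ = S ∪ A' :=
        Finset.inter_eq_left.mpr (Finset.union_subset hS hA1)
      have e2 : (S ∪ A') ∩ U₂ = A' := by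
        rw [Finset.union_inter_distrib_right, Finset.inter_eq_left.mpr hA2]
        apply Finset.union_eq_right.mpr
        refine subset_trans ?_ hAA
        intro x hx
        simp only [Finset.mem_inter] at hx ⊢
        exact ⟨hx.1, hS hx.1, hx.2⟩
      have key := hle S (S ∪ A') Finset.subset_union_left (by rw [e3]; exact hA')
      have hval : h (S ∪ A') = f₁ (S ∪ A') := by
        simp only [hh]
        rw [e1, e2, e3, hagree A' (hLsub A' hA')]
        ring
      have s1 := h₁.submod S A'
      have s2 := h₁.mono (S ∩ (U₁ ∩ U₂)) (S ∩ A')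
        (Finset.subset_inter Finset.inter_subset_left hAA)
      linarith
    · obtain ⟨T, hT1, _, hT⟩ := hex S
      have := hlow1 T
      have := h₁.mono S (T ∩ U₁) (Finset.subset_inter hT1 hS)
      linarith
  · intro S hS
    apply le_antisymm
    · obtain ⟨A', hA', hAA, hA'e⟩ := hcl (S ∩ (U₁ ∩ U₂)) Finset.inter_subset_right
      have e3 := hup S A' hA' hAA
      have hA1 : A' ⊆ U₁ := (hLsub A' hA').trans Finset.inter_subset_left
      have hA2 : A' ⊆ U₂ := (hLsub A' hA').trans Finset.inter_subset_right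
      have e1 : (S ∪ A') ∩ U₂ = S ∪ A' :=
        Finset.inter_eq_left.mpr (Finset.union_subset hS hA2)
      have e2 : (S ∪ A') ∩ U₁ = A' := by
        rw [Finset.union_inter_distrib_right, Finset.inter_eq_left.mpr hA1]
        apply Finset.union_eq_right.mpr
        refine subset_trans ?_ hAA
        intro x hx
        simp only [Finset.mem_inter] at hx ⊢
        exact ⟨hx.1, hx.2, hS hx.1⟩
      have key := hle S (S ∪ A') Finset.subset_union_left (by rw [e3]; exact hA')
      have hval : h (S ∪ A') = f₂ (S ∪ A') := by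
        simp only [hh]
        rw [e1, e2, e3]
        ring
      have s1 := h₂.submod S A'
      have s2 := h₂.mono (S ∩ (U₁ ∩ U₂)) (S ∩ A')
        (Finset.subset_inter Finset.inter_subset_left hAA)
      have g1 := hagree A' (hLsub A' hA')
      have g2 := hagree (S ∩ (U₁ ∩ U₂)) Finset.inter_subset_right
      linarith
    · obtain ⟨T, hT1, _, hT⟩ := hex S
      have := hlow2 T
      have := h₂.mono S (T ∩ U₂) (Finset.subset_inter hT1 hS)
      linarith

/-- union of a list of finsets -/
def unionL (L : List (Finset α)) : Finset α := L.foldr (· ∪ ·) ∅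

lemma mem_unionL {L : List (Finset α)} {x : α} : x ∈ unionL L ↔ ∃ G ∈ L, x ∈ G := by
  induction L with
  | nil => simp [unionL]
  | cons F L ih =>
    have : unionL (F :: L) = F ∪ unionL L := rfl
    rw [this, Finset.mem_union, ih]
    simp

/-- running intersection property, for lists in reversed order -/
def RIPr : List (Finset α) → Prop
  | [] => True
  | F :: L => RIPr L ∧ (L = [] ∨ ∃ G ∈ L, F ∩ unionL L ⊆ G)

/-- the extended copy of a facet -/
def extF (F : Finset α) : Finset (Finset α) :=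
  if F.card = 3 then emb F ∪ F.powersetCard 2 else emb F

lemma emb_subset_extF (F : Finset α) : emb F ⊆ extF F := by
  unfold extF
  split_ifs
  · exact Finset.subset_union_left
  · exact subset_rfl

lemma emb_mono {S T : Finset α} (h : S ⊆ T) : emb S ⊆ emb T :=
  Finset.image_subset_image h

lemma extF_sub {F e : Finset α} (h : e ∈ extF F) : e.Nonempty ∧ e ⊆ F := by
  have h1 : ∀ e ∈ emb F, e.Nonempty ∧ e ⊆ F := by
    intro e he
    obtain ⟨v, hv, rfl⟩ := mem_emb.mp he
    exact ⟨by simp, by simpa using hv⟩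
  unfold extF at h
  split_ifs at h
  · rcases Finset.mem_union.mp h with h | h
    · exact h1 e h
    · rw [Finset.mem_powersetCard] at h
      refine ⟨?_, h.1⟩
      rw [← Finset.card_pos, h.2]
      norm_num
  · exact h1 e h

lemma pair_mem_extF {F : Finset α} (hF : F.card = 3) {x y : α} (hx : x ∈ F) (hy : y ∈ F)
    (hxy : x ≠ y) : {x, y} ∈ extF F := by
  unfold extF
  rw [if_pos hF, Finset.mem_union]
  right
  rw [Finset.mem_powersetCard]
  exact ⟨by simp [Finset.insert_subset_iff, hx, hy], Finset.card_pair hxy⟩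

/-- the information carried by an extension of a facet -/
def Good (F : Finset α) (g : Finset α → ℝ) (f : Finset (Finset α) → ℝ) : Prop :=
  (∀ S, S ⊆ F → f (emb S) = g S) ∧
    (F.card = 3 → ∀ x ∈ F, ∀ y ∈ F, x ≠ y →
      f {{x, y}} = g {x} + g {y} - g {x, y} ∧ f {{x}, {x, y}} = g {x})

lemma lift_facet {F : Finset α} {g : Finset α → ℝ} (hg : PolyOn F g) :
    ∃ f : Finset (Finset α) → ℝ, IsPolymatroid f ∧ Good F g f := by
  by_cases hF : F.card = 3
  · obtain ⟨a, b, c, hab, hac, hbc, rfl⟩ := Finset.card_eq_three.mp hF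
    obtain ⟨f, h1, h2, h3⟩ := lift_triangle hab hac hbc hg
    exact ⟨f, h1, h2, fun _ => h3⟩
  · obtain ⟨f, h1, h2⟩ := lift_simple hg
    exact ⟨f, h1, h2, fun h => absurd h hF⟩

lemma Good.congr {F : Finset α} {g : Finset α → ℝ} {f f' : Finset (Finset α) → ℝ}
    (h : Good F g f) (U : Finset (Finset α)) (hU : extF F ⊆ U)
    (hf : ∀ S, S ⊆ U → f' S = f S) : Good F g f' := by
  refine ⟨?_, ?_⟩
  · intro S hS
    rw [hf _ (((emb_mono hS).trans (emb_subset_extF F)).trans hU)]
    exact h.1 S hS
  · intro hF x hx y hy hxy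
    have hp : {x, y} ∈ U := hU (pair_mem_extF hF hx hy hxy)
    have hx' : {x} ∈ U := hU (emb_subset_extF F (singleton_mem_emb.mpr hx))
    rw [hf _ (by simpa using hp), hf _ (by simp [Finset.insert_subset_iff, hp, hx'])]
    exact h.2 hF x hx y hy hxy

/-- the union of the extended copies of the members of a list -/
def extL (L : List (Finset α)) : Finset (Finset α) := (L.map extF).foldr (· ∪ ·) ∅

lemma mem_extL {L : List (Finset α)} {e : Finset α} : e ∈ extL L ↔ ∃ G ∈ L, e ∈ extF G := by
  induction L with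
  | nil => simp [extL]
  | cons F L ih =>
    have : extL (F :: L) = extF F ∪ extL L := rfl
    rw [this, Finset.mem_union, ih]
    simp

/-- values of an extension on the subsets of `{{a},{b},{a,b}}` -/
lemma triple_value {a b : α} {g : Finset α → ℝ} {f : Finset (Finset α) → ℝ}
    (hf : IsPolymatroid f) (ha : f {{a}} = g {a}) 
    (hab : f {{a}, {b}} = g {a, b}) (hac : f {{a}, {a, b}} = g {a}) :
    f {{a}, {b}, {a, b}} = g {a, b} := by
  apply le_antisymm
  · have h := hf.submod {{a}, {b}} {{a}, {a, b}}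
    have e1 : ({{a}, {b}} : Finset (Finset α)) ∪ {{a}, {a, b}} = {{a}, {b}, {a, b}} := by
      ext x; simp only [Finset.mem_union, Finset.mem_insert, Finset.mem_singleton]; tauto
    have e2 : ({{a}} : Finset (Finset α)) ⊆ {{a}, {b}} ∩ {{a}, {a, b}} := by
      simp
    have h2 := hf.mono _ _ e2
    rw [e1] at h
    linarith
  · rw [← hab]
    apply hf.mono
    intro x
    simp only [Finset.mem_insert, Finset.mem_singleton]
    tauto

/-- amalgamation over two elements and their common information -/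
lemma amalgam_triple {β : Type*} [DecidableEq β] [Fintype β] {f₁ f₂ : Finset β → ℝ}
    (hf₁ : IsPolymatroid f₁) (hf₂ : IsPolymatroid f₂) (U₁ U₂ : Finset β) {A B C : β}
    (hne1 : A ≠ B) (hne2 : A ≠ C) (hne3 : B ≠ C) (hKeq : U₁ ∩ U₂ = {A, B, C}) {p q r : ℝ}
    (v1a : f₁ {A} = p) (v2a : f₂ {A} = p) (v1b : f₁ {B} = q) (v2b : f₂ {B} = q)
    (v1ab : f₁ {A, B} = r) (v2ab : f₂ {A, B} = r) (v1c : f₁ {C} = p + q - r)
    (v2c : f₂ {C} = p + q - r) (v1ac : f₁ {A, C} = p) (v2ac : f₂ {A, C} = p)
    (v1bc : f₁ {B, C} = q) (v2bc : f₂ {B, C} = q) (v1abc : f₁ {A, B, C} = r)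
    (v2abc : f₂ {A, B, C} = r) :
    ∃ f : Finset β → ℝ, IsPolymatroid f ∧
      (∀ S, S ⊆ U₁ → f S = f₁ S) ∧ (∀ S, S ⊆ U₂ → f S = f₂ S) := by
  have sAC : ({A, C} : Finset β) ⊆ {A, B, C} := by
    intro x; simp only [Finset.mem_insert, Finset.mem_singleton]; tauto
  have sBC : ({B, C} : Finset β) ⊆ {A, B, C} := by
    intro x; simp only [Finset.mem_insert, Finset.mem_singleton]; tauto
  have sC : ({C} : Finset β) ⊆ {A, B, C} := by
    intro x; simp only [Finset.mem_insert, Finset.mem_singleton]; tauto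
  have sCAC : ({C} : Finset β) ⊆ {A, C} := by
    intro x; simp only [Finset.mem_insert, Finset.mem_singleton]; tauto
  have sCBC : ({C} : Finset β) ⊆ {B, C} := by
    intro x; simp only [Finset.mem_insert, Finset.mem_singleton]; tauto
  have hcomp : ∀ T T' : Finset β, T ⊆ T' → f₁ T + f₁ T' ≤ f₁ (T ∪ T') + f₁ (T ∩ T') := by
    intro T T' h
    rw [Finset.union_eq_right.mpr h, Finset.inter_eq_left.mpr h]
    linarith
  have hcomp' : ∀ T T' : Finset β, T' ⊆ T → f₁ T + f₁ T' ≤ f₁ (T ∪ T') + f₁ (T ∩ T') := by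
    intro T T' h
    rw [Finset.union_eq_left.mpr h, Finset.inter_eq_right.mpr h]
  have hform : ∀ T : Finset β, T ⊆ {A, B, C} ∧ (T.Nonempty → C ∈ T) →
      T = ∅ ∨ T = {C} ∨ T = {A, C} ∨ T = {B, C} ∨ T = {A, B, C} := by
    rintro T ⟨hT, hTC⟩
    rcases subset_triple hT with rfl | rfl | rfl | rfl | rfl | rfl | rfl | rfl
    · exact Or.inl rfl
    · exfalso
      have := hTC (by simp)
      simp only [Finset.mem_singleton] at this
      exact hne2 this.symm
    · exfalso
      have := hTC (by simp)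
      simp only [Finset.mem_singleton] at this
      exact hne3 this.symm
    · exact Or.inr (Or.inl rfl)
    · exfalso
      have := hTC (by simp)
      simp only [Finset.mem_singleton, Finset.mem_insert] at this
      rcases this with h | h
      · exact hne2 h.symm
      · exact hne3 h.symm
    · exact Or.inr (Or.inr (Or.inl rfl))
    · exact Or.inr (Or.inr (Or.inr (Or.inl rfl)))
    · exact Or.inr (Or.inr (Or.inr (Or.inr rfl)))
  have hU1 : ({A, C} : Finset β) ∪ {B, C} = {A, B, C} := by
    ext x; simp only [Finset.mem_union, Finset.mem_insert, Finset.mem_singleton]; tauto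
  have hU2 : ({B, C} : Finset β) ∪ {A, C} = {A, B, C} := by
    ext x; simp only [Finset.mem_union, Finset.mem_insert, Finset.mem_singleton]; tauto
  have hI1 : ({A, C} : Finset β) ∩ {B, C} = {C} := by
    ext x; simp only [Finset.mem_inter, Finset.mem_insert, Finset.mem_singleton]
    constructor
    · rintro ⟨h1 | h1, h2 | h2⟩
      · exact absurd (h1.symm.trans h2) hne1
      · exact h2
      · exact h1
      · exact h1
    · rintro rfl; simp
  have hI2 : ({B, C} : Finset β) ∩ {A, C} = {C} := by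
    rw [Finset.inter_comm]; exact hI1
  refine amalgam hf₁ hf₂ U₁ U₂ {T | T ⊆ {A, B, C} ∧ (T.Nonempty → C ∈ T)}
    ?_ ?_ ?_ ?_ ?_ ?_ ?_
  · rintro T ⟨hT, _⟩
    rw [hKeq]; exact hT
  · rw [hKeq]
    exact ⟨subset_rfl, fun _ => by simp⟩
  · rintro T ⟨hT, hTC⟩ T' ⟨hT', hTC'⟩
    refine ⟨Finset.union_subset hT hT', ?_⟩
    intro hne
    rcases Finset.union_nonempty.mp hne with h | h
    · exact Finset.mem_union_left _ (hTC h)
    · exact Finset.mem_union_right _ (hTC' h)
  · rintro T ⟨hT, hTC⟩ T' ⟨hT', hTC'⟩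
    refine ⟨Finset.inter_subset_left.trans hT, ?_⟩
    intro hne
    exact Finset.mem_inter.mpr ⟨hTC (hne.mono Finset.inter_subset_left),
      hTC' (hne.mono Finset.inter_subset_right)⟩
  · intro T hT
    rw [hKeq] at hT
    rcases subset_triple hT with rfl | rfl | rfl | rfl | rfl | rfl | rfl | rfl
    · rw [hf₁.empty, hf₂.empty]
    · rw [v1a, v2a]
    · rw [v1b, v2b]
    · rw [v1c, v2c]
    · rw [v1ab, v2ab]
    · rw [v1ac, v2ac]
    · rw [v1bc, v2bc]
    · rw [v1abc, v2abc]
  · intro T hT T' hT'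
    rcases hform T hT with h | h | h | h | h <;> subst h
    · exact hcomp _ _ (Finset.empty_subset _)
    · rcases hform T' hT' with h | h | h | h | h <;> subst h
      · exact hcomp' _ _ (Finset.empty_subset _)
      · exact hcomp _ _ subset_rfl
      · exact hcomp _ _ sCAC
      · exact hcomp _ _ sCBC
      · exact hcomp _ _ sC
    · rcases hform T' hT' with h | h | h | h | h <;> subst h
      · exact hcomp' _ _ (Finset.empty_subset _)
      · exact hcomp' _ _ sCAC
      · exact hcomp _ _ subset_rfl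
      · rw [hU1, hI1, v1ac, v1bc, v1abc, v1c]; linarith
      · exact hcomp _ _ sAC
    · rcases hform T' hT' with h | h | h | h | h <;> subst h
      · exact hcomp' _ _ (Finset.empty_subset _)
      · exact hcomp' _ _ sCBC
      · rw [hU2, hI2, v1ac, v1bc, v1abc, v1c]; linarith
      · exact hcomp _ _ subset_rfl
      · exact hcomp _ _ sBC
    · exact hcomp' _ _ hT'.1
  · intro T hT
    rw [hKeq] at hT
    rcases subset_triple hT with h | h | h | h | h | h | h | h <;> subst h
    · exact ⟨∅, ⟨by simp, by simp⟩, subset_rfl, rfl⟩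
    · exact ⟨{A, C}, ⟨sAC, by simp⟩, by simp, by rw [v1a, v1ac]⟩
    · exact ⟨{B, C}, ⟨sBC, by simp⟩, by simp, by rw [v1b, v1bc]⟩
    · exact ⟨{C}, ⟨sC, by simp⟩, subset_rfl, rfl⟩
    · refine ⟨{A, B, C}, ⟨subset_rfl, by simp⟩, ?_, by rw [v1ab, v1abc]⟩
      intro x
      simp only [Finset.mem_insert, Finset.mem_singleton]; tauto
    · exact ⟨{A, C}, ⟨sAC, by simp⟩, subset_rfl, rfl⟩
    · exact ⟨{B, C}, ⟨sBC, by simp⟩, subset_rfl, rfl⟩
    · exact ⟨{A, B, C}, ⟨subset_rfl, by simp⟩, subset_rfl, rfl⟩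

theorem glue_list [Fintype α] (g : Finset α → ℝ) : ∀ (L : List (Finset α)), RIPr L → L.Nodup →
    (∀ F ∈ L, PolyOn F g) → (∀ F ∈ L, ∀ G ∈ L, F ⊆ G → F = G) →
    (∀ F ∈ L, ∀ G ∈ L, F ≠ G → (F ∩ G).card ≤ 1 ∨ (F ∪ G).card ≤ 4) → L ≠ [] →
    ∃ f : Finset (Finset α) → ℝ, IsPolymatroid f ∧ ∀ F ∈ L, Good F g f := by
  intro L
  induction L with
  | nil => intro _ _ _ _ _ h; exact absurd rfl h
  | cons F L ih =>
    intro hrip hnd hpoly hanti hcond _
    obtain ⟨hrip', hor⟩ := hrip
    obtain ⟨f₂, hf₂, hg₂⟩ := lift_facet (hpoly F (by simp))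
    by_cases hL : L = []
    · subst hL
      refine ⟨f₂, hf₂, ?_⟩
      intro G hG
      have : G = F := by simpa using hG
      rw [this]; exact hg₂
    obtain ⟨G, hGL, hIG⟩ := hor.resolve_left hL
    rw [List.nodup_cons] at hnd
    obtain ⟨f₁, hf₁, hg₁⟩ := ih hrip' hnd.2 (fun F' h => hpoly F' (by simp [h]))
      (fun A hA B hB => hanti A (by simp [hA]) B (by simp [hB]))
      (fun A hA B hB => hcond A (by simp [hA]) B (by simp [hB])) hL
    -- it suffices to amalgamate
    suffices hsuff : ∃ f : Finset (Finset α) → ℝ, IsPolymatroid f ∧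
        (∀ S, S ⊆ extL L → f S = f₁ S) ∧ (∀ S, S ⊆ extF F → f S = f₂ S) by
      obtain ⟨f, hf, h1, h2⟩ := hsuff
      refine ⟨f, hf, ?_⟩
      intro G' hG'
      rcases List.mem_cons.mp hG' with rfl | hG'
      · exact hg₂.congr (extF G') subset_rfl h2
      · refine (hg₁ G' hG').congr (extL L) ?_ h1
        intro e he
        exact mem_extL.mpr ⟨G', hG', he⟩
    have hFG : F ≠ G := by
      rintro rfl; exact hnd.1 hGL
    have hIF : F ∩ unionL L ⊆ F := Finset.inter_subset_left
    have hIFG : F ∩ unionL L ⊆ F ∩ G := Finset.subset_inter hIF hIG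
    have hKI : ∀ e ∈ extL L ∩ extF F, e.Nonempty ∧ e ⊆ F ∩ unionL L := by
      intro e he
      rw [Finset.mem_inter] at he
      obtain ⟨G', hG', he'⟩ := mem_extL.mp he.1
      have h1 := extF_sub he'
      have h2 := extF_sub he.2
      refine ⟨h1.1, Finset.subset_inter h2.2 ?_⟩
      intro x hx
      exact mem_unionL.mpr ⟨G', hG', h1.2 hx⟩
    have hembI : ∀ J : Finset α, J ⊆ F ∩ unionL L → f₁ (emb J) = g J ∧ f₂ (emb J) = g J := by
      intro J hJ
      exact ⟨(hg₁ G hGL).1 J (hJ.trans hIG), hg₂.1 J (hJ.trans hIF)⟩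
    by_cases hI : (F ∩ unionL L).card ≤ 1
    · -- the intersection has at most one element
      have hK : ∀ A : Finset (Finset α), A ⊆ extL L ∩ extF F → A = emb (pre (F ∩ unionL L) A) := by
        intro A hA
        ext e
        constructor
        · intro he
          obtain ⟨h1, h2⟩ := hKI e (hA he)
          have h3 : e.card = 1 := by
            have := Finset.card_le_card h2
            have := Finset.card_pos.mpr h1
            omega
          obtain ⟨v, rfl⟩ := Finset.card_eq_one.mp h3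
          rw [singleton_mem_emb]
          simp only [pre, Finset.mem_filter]
          exact ⟨by simpa using h2, he⟩
        · intro he
          obtain ⟨v, hv, rfl⟩ := mem_emb.mp he
          simp only [pre, Finset.mem_filter] at hv
          exact hv.2
      have hAK : ∀ A : Finset (Finset α), A ⊆ extL L ∩ extF F → A = ∅ ∨ A = extL L ∩ extF F := by
        intro A hA
        rcases Finset.eq_empty_or_nonempty A with h | ⟨e, he⟩
        · exact Or.inl h
        · right
          apply subset_antisymm hA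
          intro e' he'
          obtain ⟨h1, h2⟩ := hKI e (hA he)
          obtain ⟨h1', h2'⟩ := hKI e' he'
          have : e = e' := by
            have c1 := Finset.card_pos.mpr h1
            have c2 := Finset.card_pos.mpr h1'
            have e1 : e = F ∩ unionL L := Finset.eq_of_subset_of_card_le h2 (by omega)
            have e2 : e' = F ∩ unionL L := Finset.eq_of_subset_of_card_le h2' (by omega)
            rw [e1, e2]
          rw [← this]; exact he
      refine amalgam hf₁ hf₂ (extL L) (extF F) {T | T = ∅ ∨ T = extL L ∩ extF F}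
        ?_ ?_ ?_ ?_ ?_ ?_ ?_
      · rintro A (rfl | rfl)
        · simp
        · exact subset_rfl
      · right; rfl
      · rintro A (rfl | rfl) B (rfl | rfl)
        · left; simp
        · right; simp
        · right; simp
        · right; simp
      · rintro A (rfl | rfl) B (rfl | rfl)
        · left; simp
        · left; simp
        · left; simp
        · right; simp
      · intro A hA
        rw [hK A hA]
        obtain ⟨h1, h2⟩ := hembI (pre (F ∩ unionL L) A) (pre_subset _ _)
        rw [h1, h2]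
      · rintro A (rfl | rfl) B (rfl | rfl)
        · simp
        · simp [hf₁.empty]
        · simp [hf₁.empty]
        · simp
      · intro A hA
        refine ⟨A, hAK A hA, subset_rfl, rfl⟩
    · -- triangle to triangle
      have hcard := hcond F (by simp) G (by simp [hGL]) hFG
      have hFG2 : 2 ≤ (F ∩ G).card := by
        have := Finset.card_le_card hIFG
        omega
      have hFlt : (F ∩ G).card < F.card := by
        apply Finset.card_lt_card
        refine ⟨Finset.inter_subset_left, fun h => ?_⟩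
        have : F ⊆ G := fun x hx => (Finset.mem_inter.mp (h hx)).2
        exact hFG (hanti F (by simp) G (by simp [hGL]) this)
      have hGlt : (F ∩ G).card < G.card := by
        apply Finset.card_lt_card
        refine ⟨Finset.inter_subset_right, fun h => ?_⟩
        have : G ⊆ F := fun x hx => (Finset.mem_inter.mp (h hx)).1
        exact hFG (hanti G (by simp [hGL]) F (by simp) this).symm
      have hsum := Finset.card_union_add_card_inter F G
      have hU : (F ∪ G).card ≤ 4 := by
        rcases hcard with h | h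
        · omega
        · exact h
      have hF3 : F.card = 3 := by omega
      have hG3 : G.card = 3 := by omega
      have hI2 : (F ∩ unionL L).card = 2 := by
        have := Finset.card_le_card hIFG
        omega
      obtain ⟨a, b, hab, hIab⟩ := Finset.card_eq_two.mp hI2
      have haI : a ∈ F ∩ unionL L := by rw [hIab]; simp
      have hbI : b ∈ F ∩ unionL L := by rw [hIab]; simp
      have haF := hIF haI
      have hbF := hIF hbI
      have haG := hIG haI
      have hbG := hIG hbI
      have hKeq : extL L ∩ extF F = {{a}, {b}, {a, b}} := by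
        ext e
        constructor
        · intro he
          obtain ⟨h1, h2⟩ := hKI e he
          rw [hIab] at h2
          have h3 : e ⊆ ({a, b, b} : Finset α) := by
            intro x hx
            have := h2 hx
            simp only [Finset.mem_insert, Finset.mem_singleton] at this ⊢
            tauto
          have hbb : ({b, b} : Finset α) = {b} := by simp
          have habb : ({a, b, b} : Finset α) = {a, b} := by simp
          rcases subset_triple h3 with h | h | h | h | h | h | h | h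
          · exact absurd h h1.ne_empty
          · simp [h]
          · simp [h]
          · simp [h]
          · simp [h]
          · simp [h]
          · rw [hbb] at h; simp [h]
          · rw [habb] at h; simp [h]
        · intro he
          simp only [Finset.mem_insert, Finset.mem_singleton] at he
          rw [Finset.mem_inter, mem_extL]
          rcases he with rfl | rfl | rfl
          · exact ⟨⟨G, hGL, emb_subset_extF G (singleton_mem_emb.mpr haG)⟩,
              emb_subset_extF F (singleton_mem_emb.mpr haF)⟩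
          · exact ⟨⟨G, hGL, emb_subset_extF G (singleton_mem_emb.mpr hbG)⟩,
              emb_subset_extF F (singleton_mem_emb.mpr hbF)⟩
          · exact ⟨⟨G, hGL, pair_mem_extF hG3 haG hbG hab⟩, pair_mem_extF hF3 haF hbF hab⟩
      -- the values
      have hea : emb ({a} : Finset α) = {{a}} := by simp [emb]
      have heb : emb ({b} : Finset α) = {{b}} := by simp [emb]
      have heab : emb ({a, b} : Finset α) = {{a}, {b}} := by simp [emb, Finset.image_insert]
      have hba : ({b, a} : Finset α) = {a, b} := Finset.pair_comm _ _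
      have v1a : f₁ {{a}} = g {a} := by rw [← hea]; exact (hembI {a} (by simpa using haI)).1
      have v2a : f₂ {{a}} = g {a} := by rw [← hea]; exact (hembI {a} (by simpa using haI)).2
      have v1b : f₁ {{b}} = g {b} := by rw [← heb]; exact (hembI {b} (by simpa using hbI)).1
      have v2b : f₂ {{b}} = g {b} := by rw [← heb]; exact (hembI {b} (by simpa using hbI)).2
      have v1ab : f₁ {{a}, {b}} = g {a, b} := by
        rw [← heab]; exact (hembI {a, b} (by rw [hIab])).1
      have v2ab : f₂ {{a}, {b}} = g {a, b} := by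
        rw [← heab]; exact (hembI {a, b} (by rw [hIab])).2
      obtain ⟨v1c, v1ac⟩ := (hg₁ G hGL).2 hG3 a haG b hbG hab
      obtain ⟨v2c, v2ac⟩ := hg₂.2 hF3 a haF b hbF hab
      obtain ⟨-, v1bc⟩ := (hg₁ G hGL).2 hG3 b hbG a haG hab.symm
      obtain ⟨-, v2bc⟩ := hg₂.2 hF3 b hbF a haF hab.symm
      rw [hba] at v1bc v2bc
      have v1abc := triple_value hf₁ v1a v1ab v1ac
      have v2abc := triple_value hf₂ v2a v2ab v2ac
      have hne1 : ({a} : Finset α) ≠ {b} := fun h => hab (Finset.singleton_injective h)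
      have hne2 : ({a} : Finset α) ≠ {a, b} := by
        intro h
        have hb' : b ∈ ({a} : Finset α) := by rw [h]; simp
        exact hab (Finset.mem_singleton.mp hb').symm
      have hne3 : ({b} : Finset α) ≠ {a, b} := by
        intro h
        have ha' : a ∈ ({b} : Finset α) := by rw [h]; simp
        exact hab (Finset.mem_singleton.mp ha')
      exact amalgam_triple hf₁ hf₂ (extL L) (extF F) hne1 hne2 hne3 hKeq v1a v2a v1b v2b v1ab v2ab
        v1c v2c v1ac v2ac v1bc v2bc v1abc v2abc

lemma scenario_of_local {M : Finset (Finset α)} (hM : IsScenario M) {g : Finset α → ℝ}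
    (h : ∀ F ∈ M, ∃ h : Finset α → ℝ, IsPolymatroid h ∧ ∀ S, S ⊆ F → g S = h S) :
    IsPartialPolymatroid M g where
  empty := by
    obtain ⟨h', h1, h2⟩ := h ∅ hM.1
    rw [h2 ∅ subset_rfl, h1.empty]
  nonneg S hS := by
    obtain ⟨h', h1, h2⟩ := h S hS
    rw [h2 S subset_rfl]; exact h1.nonneg S
  mono S hS T hT hST := by
    obtain ⟨h', h1, h2⟩ := h T hT
    rw [h2 S hST, h2 T subset_rfl]; exact h1.mono S T hST
  submod S hS T hT hST := by
    obtain ⟨h', h1, h2⟩ := h (S ∪ T) hST
    rw [h2 S Finset.subset_union_left, h2 T Finset.subset_union_right, h2 _ subset_rfl,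
      h2 (S ∩ T) (Finset.inter_subset_left.trans Finset.subset_union_left)]
    exact h1.submod S T

lemma IsPolymatroid.sub4 {f : Finset α → ℝ} (hf : IsPolymatroid f) {U I A B : Finset α}
    (hU : U ⊆ A ∪ B) (hI : I ⊆ A ∩ B) : f U + f I ≤ f A + f B := by
  have h1 := hf.mono _ _ hU
  have h2 := hf.mono _ _ hI
  have h3 := hf.submod A B
  linarith

/-- every clique of a good scenario is a face -/
lemma conformal {M : Finset (Finset α)} (hM : IsScenario M) (hall : AllExtend M) :
    ∀ W : Finset α, (∀ x ∈ W, ∀ y ∈ W, ({x, y} : Finset α) ∈ M) → W ∈ M := by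
  intro W
  induction W using Finset.strongInduction with
  | H W ih =>
  intro hpair
  by_contra hW
  have hsub : ∀ T, T ⊂ W → T ∈ M := fun T hT =>
    ih T hT (fun x hx y hy => hpair x (hT.1 hx) y (hT.1 hy))
  have hcard : 3 ≤ W.card := by
    by_contra hlt
    have h3 : W.card = 0 ∨ W.card = 1 ∨ W.card = 2 := by omega
    rcases h3 with h | h | h
    · rw [Finset.card_eq_zero.mp h] at hW
      exact hW hM.1
    · obtain ⟨x, rfl⟩ := Finset.card_eq_one.mp h
      have := hpair x (by simp) x (by simp)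
      simp only [Finset.pair_eq_singleton] at this
      exact hW this
    · obtain ⟨x, y, _, rfl⟩ := Finset.card_eq_two.mp h
      exact hW (hpair x (by simp) y (by simp))
  obtain ⟨l, hl⟩ : W.Nonempty := Finset.card_pos.mp (by omega)
  set k := W.card with hk
  set g : Finset α → ℝ := fun S =>
    if l ∈ S then ((min (k - 2) (S ∩ W).card : ℕ) : ℝ) else ((S ∩ W).card : ℝ) with hg
  have hcomap : ∀ m : ℕ, IsPolymatroid (fun S : Finset α => ((min m (S ∩ W).card : ℕ) : ℝ)) :=
    fun m => (minCard_poly (β := α) m).comap (fun S => S ∩ W) (by simp)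
      (fun S T => Finset.union_inter_distrib_right _ _ _)
      (fun S T => Finset.inter_inter_distrib_right _ _ _)
  have hgpart : IsPartialPolymatroid M g := by
    apply scenario_of_local hM
    intro F hF
    have hFW : (F ∩ W).card ≤ k - 1 := by
      have hne : F ∩ W ≠ W := by
        intro h
        apply hW
        exact hM.2 F hF W (by rw [← h]; exact Finset.inter_subset_left)
      have : (F ∩ W).card < W.card :=
        Finset.card_lt_card (lt_of_le_of_ne Finset.inter_subset_right hne)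
      omega
    by_cases hlF : l ∈ F
    · refine ⟨_, hcomap (k - 2), ?_⟩
      intro S hS
      simp only [hg]
      split_ifs with h
      · rfl
      · have h1 : (S ∩ W).card < (F ∩ W).card := by
          apply Finset.card_lt_card
          refine ⟨Finset.inter_subset_inter_right hS, fun hc => h ?_⟩
          exact (Finset.mem_inter.mp (hc (Finset.mem_inter.mpr ⟨hlF, hl⟩))).1
        have : min (k - 2) (S ∩ W).card = (S ∩ W).card := by omega
        rw [this]
    · refine ⟨_, hcomap k, ?_⟩
      intro S hS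
      simp only [hg]
      rw [if_neg (fun h => hlF (hS h))]
      have h1 : (S ∩ W).card ≤ (F ∩ W).card :=
        Finset.card_le_card (Finset.inter_subset_inter_right hS)
      have : min k (S ∩ W).card = (S ∩ W).card := by omega
      rw [this]
  obtain ⟨f, hf, hfg⟩ := hall g hgpart
  have hcl : (W.erase l).card = k - 1 := Finset.card_erase_of_mem hl
  obtain ⟨i, hi⟩ : (W.erase l).Nonempty := Finset.card_pos.mp (by omega)
  have hcli : ((W.erase l).erase i).card = k - 2 := by
    rw [Finset.card_erase_of_mem hi, hcl]; omega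
  obtain ⟨j, hj⟩ : ((W.erase l).erase i).Nonempty := Finset.card_pos.mp (by omega)
  simp only [Finset.mem_erase] at hi hj
  have ei : f (W.erase i) = ((k - 2 : ℕ) : ℝ) := by
    rw [hfg _ (hsub _ (Finset.erase_ssubset hi.2))]
    simp only [hg]
    rw [if_pos (Finset.mem_erase.mpr ⟨hi.1.symm, hl⟩),
      Finset.inter_eq_left.mpr (Finset.erase_subset _ _), Finset.card_erase_of_mem hi.2]
    congr 1
    omega
  have ej : f (W.erase j) = ((k - 2 : ℕ) : ℝ) := by
    rw [hfg _ (hsub _ (Finset.erase_ssubset hj.2.2))]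
    simp only [hg]
    rw [if_pos (Finset.mem_erase.mpr ⟨hj.2.1.symm, hl⟩),
      Finset.inter_eq_left.mpr (Finset.erase_subset _ _), Finset.card_erase_of_mem hj.2.2]
    congr 1
    omega
  have eij : f ((W.erase i).erase j) = ((k - 2 : ℕ) : ℝ) := by
    have hss : (W.erase i).erase j ⊆ W := (Finset.erase_subset _ _).trans (Finset.erase_subset _ _)
    have hss' : (W.erase i).erase j ⊂ W :=
      lt_of_le_of_lt (Finset.erase_subset _ _) (Finset.erase_ssubset hi.2)
    rw [hfg _ (hsub _ hss')]
    simp only [hg]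
    rw [if_pos (Finset.mem_erase.mpr ⟨hj.2.1.symm, Finset.mem_erase.mpr ⟨hi.1.symm, hl⟩⟩),
      Finset.inter_eq_left.mpr hss,
      Finset.card_erase_of_mem (Finset.mem_erase.mpr ⟨hj.1, hj.2.2⟩),
      Finset.card_erase_of_mem hi.2]
    congr 1
    omega
  have el : f (W.erase l) = ((k - 1 : ℕ) : ℝ) := by
    rw [hfg _ (hsub _ (Finset.erase_ssubset hl))]
    simp only [hg]
    rw [if_neg (by simp), Finset.inter_eq_left.mpr (Finset.erase_subset _ _), hcl]
  have hU : W ⊆ W.erase i ∪ W.erase j := by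
    intro x hx
    rw [Finset.mem_union, Finset.mem_erase, Finset.mem_erase]
    by_cases h : x = i
    · right; exact ⟨by rw [h]; exact hj.1.symm, hx⟩
    · left; exact ⟨h, hx⟩
  have hI : (W.erase i).erase j ⊆ W.erase i ∩ W.erase j := by
    intro x hx
    simp only [Finset.mem_erase, Finset.mem_inter] at hx ⊢
    tauto
  have key := hf.sub4 hU hI
  have key2 := hf.mono (W.erase l) W (Finset.erase_subset _ _)
  have hk1 : ((k - 1 : ℕ) : ℝ) = ((k - 2 : ℕ) : ℝ) + 1 := by
    have : k - 1 = (k - 2) + 1 := by omega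
    rw [this]; push_cast; ring
  rw [ei, ej, eij] at key
  rw [el, hk1] at key2
  linarith

/-- in a good scenario, two vertices joined twice are joined -/
lemma separator_gadget {M : Finset (Finset α)} (hM : IsScenario M) (hall : AllExtend M)
    {a s t : α} {B : Finset α} (has : ({a, s} : Finset α) ∈ M) (hat : ({a, t} : Finset α) ∈ M)
    (hst : ({s, t} : Finset α) ∉ M) (haB : ∀ b ∈ B, ({a, b} : Finset α) ∉ M) {b₀ : α}
    (hconn : ∀ b ∈ B,
      Relation.ReflTransGen (fun x y => x ∈ B ∧ y ∈ B ∧ ({x, y} : Finset α) ∈ M) b₀ b)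
    (hBM : ∀ b ∈ B, ({b} : Finset α) ∈ M) {bs bt : α} (hb₀ : b₀ ∈ B) (hbs : bs ∈ B) (hbt : bt ∈ B) (hsbs : ({s, bs} : Finset α) ∈ M)
    (htbt : ({t, bt} : Finset α) ∈ M) : False := by
  classical
  have hsub : ∀ S ∈ M, ∀ x ∈ S, ∀ y ∈ S, ({x, y} : Finset α) ∈ M := by
    intro S hS x hx y hy
    exact hM.2 S hS _ (by simp [Finset.insert_subset_iff, hx, hy])
  have haB' : a ∉ B := by
    intro h
    apply haB a h
    exact hsub _ has a (by simp) a (by simp)
  have hsB : s ∉ B := fun h => haB s h has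
  have htB : t ∉ B := fun h => haB t h hat
  set g : Finset α → ℝ := fun S =>
    hit (fun x => x = a ∨ x = s ∨ x = t ∨ x ∈ B) S + if s ∈ S then hit (fun x => x ∈ B) S else 0
    with hg
  have hgpart : IsPartialPolymatroid M g := by
    apply scenario_of_local hM
    intro F hF
    by_cases hc : s ∈ F ∧ ∃ b ∈ F, b ∈ B
    · obtain ⟨hsF, b, hbF, hbB⟩ := hc
      have haF : a ∉ F := fun h => haB b hbB (hsub F hF a h b hbF)
      have htF : t ∉ F := fun h => hst (hsub F hF s hsF t h)
      refine ⟨_, (hit_poly (fun x => x = s)).add (hit_poly (fun x => x ∈ B)), ?_⟩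
      intro S hS
      have haS : a ∉ S := fun h => haF (hS h)
      have htS : t ∉ S := fun h => htF (hS h)
      simp only [hg]
      by_cases hsS : s ∈ S
      · rw [if_pos hsS]
        congr 1
        unfold hit
        rw [if_pos ⟨s, hsS, Or.inr (Or.inl rfl)⟩, if_pos ⟨s, hsS, rfl⟩]
      · rw [if_neg hsS, add_zero]
        have h0 : hit (fun x => x = s) S = 0 := by
          unfold hit
          rw [if_neg]
          rintro ⟨e, he, rfl⟩
          exact hsS he
        rw [h0, zero_add]
        unfold hit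
        congr 1
        apply propext
        constructor
        · rintro ⟨e, he, rfl | rfl | rfl | h⟩
          · exact absurd he haS
          · exact absurd he hsS
          · exact absurd he htS
          · exact ⟨e, he, h⟩
        · rintro ⟨e, he, h⟩
          exact ⟨e, he, Or.inr (Or.inr (Or.inr h))⟩
    · refine ⟨_, hit_poly (fun x => x = a ∨ x = s ∨ x = t ∨ x ∈ B), ?_⟩
      intro S hS
      simp only [hg]
      by_cases hsS : s ∈ S
      · rw [if_pos hsS]
        have h0 : hit (fun x => x ∈ B) S = 0 := by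
          unfold hit
          rw [if_neg]
          rintro ⟨e, he, h⟩
          exact hc ⟨hS hsS, e, hS he, h⟩
        rw [h0, add_zero]
      · rw [if_neg hsS, add_zero]
  obtain ⟨f, hf, hfg⟩ := hall g hgpart
  -- values
  have hU : ∀ S : Finset α, (∃ x ∈ S, x = a ∨ x = s ∨ x = t ∨ x ∈ B) →
      hit (fun x => x = a ∨ x = s ∨ x = t ∨ x ∈ B) S = 1 := by
    intro S h
    unfold hit
    rw [if_pos h]
  have hval1 : ∀ S ∈ M, (∃ x ∈ S, x = a ∨ x = s ∨ x = t ∨ x ∈ B) → ¬ (s ∈ S ∧ ∃ b ∈ S, b ∈ B) →
      f S = 1 := by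
    intro S hS h1 h2
    rw [hfg S hS]
    simp only [hg]
    rw [hU S h1]
    by_cases hsS : s ∈ S
    · rw [if_pos hsS]
      have h0 : hit (fun x => x ∈ B) S = 0 := by
        unfold hit
        rw [if_neg]
        rintro ⟨e, he, h⟩
        exact h2 ⟨hsS, e, he, h⟩
      rw [h0, add_zero]
    · rw [if_neg hsS, add_zero]
  have htrans : ∀ x y z : α, f {x, y} ≤ 1 → f {y, z} ≤ 1 → 1 ≤ f {y} → f {x, z} ≤ 1 := by
    intro x y z h1 h2 h3
    have h4 := hf.sub4 (U := {x, z}) (I := {y}) (A := {x, y}) (B := {y, z})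
      (by intro w; simp only [Finset.mem_insert, Finset.mem_singleton, Finset.mem_union]; tauto)
      (by intro w; simp only [Finset.mem_insert, Finset.mem_singleton, Finset.mem_inter]; tauto)
    linarith
  have hsing : ∀ x y : α, ({x, y} : Finset α) ∈ M → ({x} : Finset α) ∈ M := by
    intro x y h
    exact hM.2 _ h _ (by simp)
  have hsing' : ∀ x y : α, ({x, y} : Finset α) ∈ M → ({y} : Finset α) ∈ M := by
    intro x y h
    exact hM.2 _ h _ (by simp)
  have fa : f {a} = 1 := hval1 _ (hsing a s has) ⟨a, by simp, Or.inl rfl⟩ (by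
    rintro ⟨-, b, hb, hbB⟩
    rw [Finset.mem_singleton.mp hb] at hbB
    exact haB' hbB)
  have ft : f {t} = 1 := hval1 _ (hsing' a t hat) ⟨t, by simp, Or.inr (Or.inr (Or.inl rfl))⟩ (by
    rintro ⟨-, b, hb, hbB⟩
    rw [Finset.mem_singleton.mp hb] at hbB
    exact htB hbB)
  have fB : ∀ x ∈ B, ({x} : Finset α) ∈ M → f {x} = 1 := by
    intro x hx hxM
    refine hval1 _ hxM ⟨x, by simp, Or.inr (Or.inr (Or.inr hx))⟩ ?_
    rintro ⟨h, -⟩
    rw [Finset.mem_singleton.mp h] at hsB
    exact hsB hx
  have fBB : ∀ x ∈ B, ∀ y ∈ B, ({x, y} : Finset α) ∈ M → f {x, y} = 1 := by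
    intro x hx y hy hxy
    refine hval1 _ hxy ⟨x, by simp, Or.inr (Or.inr (Or.inr hx))⟩ ?_
    rintro ⟨h, -⟩
    rcases Finset.mem_insert.mp h with h | h
    · rw [h] at hsB; exact hsB hx
    · rw [Finset.mem_singleton.mp h] at hsB; exact hsB hy
  have fas : f {a, s} = 1 := by
    refine hval1 _ has ⟨a, by simp, Or.inl rfl⟩ ?_
    rintro ⟨-, b, hb, hbB⟩
    rcases Finset.mem_insert.mp hb with h | h
    · rw [h] at hbB; exact haB' hbB
    · rw [Finset.mem_singleton.mp h] at hbB; exact hsB hbB
  have fat : f {a, t} = 1 := by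
    refine hval1 _ hat ⟨a, by simp, Or.inl rfl⟩ ?_
    rintro ⟨-, b, hb, hbB⟩
    rcases Finset.mem_insert.mp hb with h | h
    · rw [h] at hbB; exact haB' hbB
    · rw [Finset.mem_singleton.mp h] at hbB; exact htB hbB
  have ftbt : f {t, bt} = 1 := by
    refine hval1 _ htbt ⟨t, by simp, Or.inr (Or.inr (Or.inl rfl))⟩ ?_
    rintro ⟨h, -⟩
    rcases Finset.mem_insert.mp h with h | h
    · apply hst
      rw [← h]
      exact hM.2 _ has _ (by simp)
    · rw [Finset.mem_singleton.mp h] at hsB; exact hsB hbt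
  have hchain : ∀ b, Relation.ReflTransGen
      (fun x y => x ∈ B ∧ y ∈ B ∧ ({x, y} : Finset α) ∈ M) b₀ b → f {b₀, b} ≤ 1 := by
    intro b h
    induction h with
    | refl => simp [fB b₀ hb₀ (hBM b₀ hb₀)]
    | tail h1 h2 ih =>
      exact htrans _ _ _ ih (fBB _ h2.1 _ h2.2.1 h2.2.2).le (fB _ h2.1 (hBM _ h2.1)).ge
  have h1 : f {s, t} ≤ 1 := htrans s a t (by rw [Finset.pair_comm]; exact fas.le) fat.le fa.ge
  have h2 : f {s, bt} ≤ 1 := htrans s t bt h1 ftbt.le ft.ge
  have h3 : f {s, b₀} ≤ 1 := htrans s bt b₀ h2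
    (by rw [Finset.pair_comm]; exact hchain bt (hconn bt hbt)) (fB bt hbt (hBM bt hbt)).ge
  have h4 : f {s, bs} ≤ 1 := htrans s b₀ bs h3 (hchain bs (hconn bs hbs)) (fB b₀ hb₀ (hBM b₀ hb₀)).ge
  have h5 : f {s, bs} = 2 := by
    rw [hfg _ hsbs]
    simp only [hg]
    rw [hU _ ⟨s, by simp, Or.inr (Or.inl rfl)⟩, if_pos (by simp)]
    unfold hit
    rw [if_pos ⟨bs, by simp, hbs⟩]
    norm_num
  linarith

/-- Dirac-type elimination in a good scenario -/
lemma dirac {M : Finset (Finset α)} (hM : IsScenario M) (hall : AllExtend M) :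
    ∀ W : Finset α, (∀ x ∈ W, ({x} : Finset α) ∈ M) → ∀ F ∈ M, F ⊂ W →
      ∃ x ∈ W, x ∉ F ∧ W.filter (fun y => ({x, y} : Finset α) ∈ M) ∈ M := by
  classical
  intro W
  induction W using Finset.strongInduction with
  | H W ih =>
  intro hWM F hFM hFW
  have hsub : ∀ S ∈ M, ∀ x ∈ S, ∀ y ∈ S, ({x, y} : Finset α) ∈ M := by
    intro S hS x hx y hy
    exact hM.2 S hS _ (by simp [Finset.insert_subset_iff, hx, hy])
  by_cases hclique : ∀ x ∈ W, ∀ y ∈ W, ({x, y} : Finset α) ∈ M
  · have hWin := conformal hM hall W hclique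
    obtain ⟨x, hx, hxF⟩ := Finset.exists_of_ssubset hFW
    exact ⟨x, hx, hxF, hM.2 W hWin _ (Finset.filter_subset _ _)⟩
  push Not at hclique
  obtain ⟨a, ha, b, hb, hab⟩ := hclique
  set r : α → α → Prop := fun x y => x ∈ W ∧ ({a, x} : Finset α) ∉ M ∧ y ∈ W ∧
    ({a, y} : Finset α) ∉ M ∧ ({x, y} : Finset α) ∈ M with hr
  set B : Finset α := W.filter (fun y => Relation.ReflTransGen r b y) with hB
  have hBprop : ∀ y, y ∈ B → y ∈ W ∧ ({a, y} : Finset α) ∉ M := by
    intro y hy
    rw [hB, Finset.mem_filter] at hy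
    refine ⟨hy.1, ?_⟩
    rcases Relation.ReflTransGen.cases_tail hy.2 with h | ⟨z, _, hz⟩
    · rw [h]; exact hab
    · exact hz.2.2.2.1
  have hbB : b ∈ B := by
    rw [hB, Finset.mem_filter]
    exact ⟨hb, Relation.ReflTransGen.refl⟩
  have hstep : ∀ z ∈ B, ∀ y ∈ W, ({z, y} : Finset α) ∈ M → ({a, y} : Finset α) ∉ M → y ∈ B := by
    intro z hz y hy hzy hay
    have hz' := hBprop z hz
    rw [hB, Finset.mem_filter] at hz ⊢
    exact ⟨hy, hz.2.tail ⟨hz'.1, hz'.2, hy, hay, hzy⟩⟩
  have hconn : ∀ y ∈ B,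
      Relation.ReflTransGen (fun x y => x ∈ B ∧ y ∈ B ∧ ({x, y} : Finset α) ∈ M) b y := by
    intro y hy
    rw [hB, Finset.mem_filter] at hy
    have h := hy.2
    clear hy
    induction h with
    | refl => exact Relation.ReflTransGen.refl
    | tail h1 h2 ih' =>
      rename_i x y
      refine ih'.tail ⟨?_, ?_, h2.2.2.2.2⟩
      · rw [hB, Finset.mem_filter]; exact ⟨h2.1, h1⟩
      · rw [hB, Finset.mem_filter]; exact ⟨h2.2.2.1, h1.tail h2⟩
  set S : Finset α := W.filter (fun y => y ∉ B ∧ ∃ z ∈ B, ({z, y} : Finset α) ∈ M) with hS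
  have hSprop : ∀ y ∈ S, y ∈ W ∧ y ∉ B ∧ (∃ z ∈ B, ({z, y} : Finset α) ∈ M) ∧
      ({a, y} : Finset α) ∈ M := by
    intro y hy
    rw [hS, Finset.mem_filter] at hy
    refine ⟨hy.1, hy.2.1, hy.2.2, ?_⟩
    by_contra hay
    obtain ⟨z, hz, hzy⟩ := hy.2.2
    exact hy.2.1 (hstep z hz y hy.1 hzy hay)
  have haa : ({a, a} : Finset α) ∈ M := by simpa using hWM a ha
  have haB : a ∉ B := fun h => (hBprop a h).2 haa
  have haS : a ∉ S := by
    intro h
    obtain ⟨-, -, ⟨z, hz, hza⟩, -⟩ := hSprop a h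
    rw [Finset.pair_comm] at hza
    exact (hBprop z hz).2 hza
  have hnb : ∀ z ∈ B, ∀ y ∈ W, ({z, y} : Finset α) ∈ M → y ∈ B ∨ y ∈ S := by
    intro z hz y hy hzy
    by_cases h : y ∈ B
    · exact Or.inl h
    · right
      rw [hS, Finset.mem_filter]
      exact ⟨hy, h, z, hz, hzy⟩
  have hSM : S ∈ M := by
    apply conformal hM hall
    intro s hs t ht
    by_contra hst
    obtain ⟨-, -, ⟨bs, hbs, hbss⟩, has⟩ := hSprop s hs
    obtain ⟨-, -, ⟨bt, hbt, hbtt⟩, hat⟩ := hSprop t ht
    rw [Finset.pair_comm] at hbss hbtt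
    exact separator_gadget hM hall has hat hst (fun y hy => (hBprop y hy).2) hconn
      (fun y hy => hWM y (hBprop y hy).1) hbB hbs hbt hbss hbtt
  by_cases hFB : ∃ z ∈ F, z ∈ B
  · -- F lies in B ∪ S
    obtain ⟨z, hzF, hzB⟩ := hFB
    have hF' : ∀ y ∈ F, y ∈ B ∨ y ∈ S := fun y hy =>
      hnb z hzB y (hFW.1 hy) (hsub F hFM z hzF y hy)
    have hW' : W \ B ⊂ W := by
      refine ⟨Finset.sdiff_subset, fun h => ?_⟩
      exact (Finset.mem_sdiff.mp (h hb)).2 hbB
    have hSW' : S ⊂ W \ B := by
      refine ⟨fun y hy => Finset.mem_sdiff.mpr ⟨(hSprop y hy).1, (hSprop y hy).2.1⟩, fun h => ?_⟩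
      exact haS (h (Finset.mem_sdiff.mpr ⟨ha, haB⟩))
    obtain ⟨x, hx, hxS, hxM⟩ := ih _ hW' (fun x hx => hWM x (Finset.mem_sdiff.mp hx).1) S hSM hSW'
    rw [Finset.mem_sdiff] at hx
    refine ⟨x, hx.1, ?_, ?_⟩
    · intro hxF
      rcases hF' x hxF with h | h
      · exact hx.2 h
      · exact hxS h
    · refine hM.2 _ hxM _ ?_
      intro y hy
      rw [Finset.mem_filter] at hy ⊢
      refine ⟨Finset.mem_sdiff.mpr ⟨hy.1, fun hyB => ?_⟩, hy.2⟩
      rcases hnb y hyB x hx.1 (by rw [Finset.pair_comm]; exact hy.2) with h | h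
      · exact hx.2 h
      · exact hxS h
  · push Not at hFB
    have hBS : B ∪ S ⊂ W := by
      refine ⟨Finset.union_subset (Finset.filter_subset _ _) (Finset.filter_subset _ _), fun h => ?_⟩
      rcases Finset.mem_union.mp (h ha) with h | h
      · exact haB h
      · exact haS h
    have hSB : S ⊂ B ∪ S := by
      refine ⟨Finset.subset_union_right, fun h => ?_⟩
      exact (hSprop b (h (Finset.mem_union_left _ hbB))).2.1 hbB
    obtain ⟨x, hx, hxS, hxM⟩ := ih _ hBS (fun x hx => hWM x (hBS.1 hx)) S hSM hSB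
    have hxB : x ∈ B := (Finset.mem_union.mp hx).resolve_right hxS
    refine ⟨x, hBS.1 hx, fun h => hFB x h hxB, ?_⟩
    refine hM.2 _ hxM _ ?_
    intro y hy
    rw [Finset.mem_filter] at hy ⊢
    refine ⟨Finset.mem_union.mpr (hnb x hxB y hy.1 hy.2), hy.2⟩

lemma unionL_map {x : α} {D C : Finset α} (hxD : ∀ y, y ∈ C → y ∈ D ∨ y = x)
    (L : List (Finset α)) :
    unionL (L.map (fun G => if G = D then C else G)) ⊆ insert x (unionL L) := by
  intro y hy
  rw [mem_unionL] at hy
  obtain ⟨G, hG, hyG⟩ := hy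
  rw [List.mem_map] at hG
  obtain ⟨G', hG', rfl⟩ := hG
  rw [Finset.mem_insert, mem_unionL]
  split_ifs at hyG with h
  · rcases hxD y hyG with h1 | h1
    · right; exact ⟨G', hG', by rw [h]; exact h1⟩
    · left; exact h1
  · right; exact ⟨G', hG', hyG⟩

lemma RIPr_map {x : α} {D C : Finset α} (hDC : D ⊆ C) (hxD : ∀ y, y ∈ C → y ∈ D ∨ y = x) :
    ∀ L : List (Finset α), L.Nodup → (∀ G ∈ L, x ∉ G) → RIPr L →
      RIPr (L.map (fun G => if G = D then C else G)) := by
  intro L
  induction L with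
  | nil => intro _ _ _; trivial
  | cons F L ih =>
    intro hnd hx hrip
    rw [List.nodup_cons] at hnd
    obtain ⟨h1, h2⟩ := hrip
    refine ⟨ih hnd.2 (fun G hG => hx G (by simp [hG])) h1, ?_⟩
    rcases h2 with h2 | ⟨G, hG, h2⟩
    · left; rw [h2]; rfl
    · right
      refine ⟨if G = D then C else G, List.mem_map.mpr ⟨G, hG, rfl⟩, ?_⟩
      have hGsub : G ⊆ (if G = D then C else G) := by
        split_ifs with h
        · rw [h]; exact hDC
        · exact subset_rfl
      refine subset_trans ?_ hGsub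
      refine subset_trans ?_ h2
      show (if F = D then C else F) ∩ _ ⊆ _
      by_cases hFD : F = D
      · rw [if_pos hFD]
        -- here the map is the identity on L
        have hid : L.map (fun G => if G = D then C else G) = L := by
          conv_rhs => rw [← List.map_id L]
          apply List.map_congr_left
          intro G' hG'
          rw [if_neg]
          · rfl
          · rintro rfl
            exact hnd.1 (hFD ▸ hG')
        rw [hid]
        intro y hy
        rw [Finset.mem_inter] at hy ⊢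
        refine ⟨?_, hy.2⟩
        rcases hxD y hy.1 with h | h
        · rw [hFD]; exact h
        · exfalso
          obtain ⟨G', hG', hyG'⟩ := mem_unionL.mp hy.2
          rw [h] at hyG'
          exact hx G' (by simp [hG']) hyG'
      · rw [if_neg hFD]
        intro y hy
        rw [Finset.mem_inter] at hy ⊢
        refine ⟨hy.1, ?_⟩
        rcases Finset.mem_insert.mp (unionL_map hxD L hy.2) with h | h
        · exfalso
          rw [h] at hy
          exact hx F (by simp) hy.1
        · exact h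

lemma rip_of_elim {M : Finset (Finset α)} (hM : IsScenario M)
    (hD : ∀ W : Finset α, (∀ x ∈ W, ({x} : Finset α) ∈ M) → W.Nonempty →
      ∃ x ∈ W, W.filter (fun y => ({x, y} : Finset α) ∈ M) ∈ M) :
    ∀ W : Finset α, (∀ x ∈ W, ({x} : Finset α) ∈ M) →
      ∃ L : List (Finset α), RIPr L ∧ L.Nodup ∧
        ∀ S, S ∈ L ↔ (S ∈ M ∧ S ⊆ W ∧ ∀ G ∈ M, G ⊆ W → S ⊆ G → S = G) := by
  intro W
  induction W using Finset.strongInduction with
  | H W ih =>
  intro hWM
  have hsub : ∀ S ∈ M, ∀ x ∈ S, ∀ y ∈ S, ({x, y} : Finset α) ∈ M := by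
    intro S hS x hx y hy
    exact hM.2 S hS _ (by simp [Finset.insert_subset_iff, hx, hy])
  rcases Finset.eq_empty_or_nonempty W with rfl | hne
  · refine ⟨[∅], ⟨trivial, Or.inl rfl⟩, by simp, ?_⟩
    intro S
    rw [List.mem_singleton]
    constructor
    · rintro rfl
      exact ⟨hM.1, subset_rfl, fun G _ hG _ => (Finset.subset_empty.mp hG).symm⟩
    · rintro ⟨_, h, _⟩
      exact Finset.subset_empty.mp h
  obtain ⟨x, hxW, hCM⟩ := hD W hWM hne
  set C : Finset α := W.filter (fun y => ({x, y} : Finset α) ∈ M) with hC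
  have hxC : x ∈ C := by
    rw [hC, Finset.mem_filter]
    exact ⟨hxW, by simpa using hWM x hxW⟩
  have hCW : C ⊆ W := Finset.filter_subset _ _
  have hmax : ∀ S ∈ M, S ⊆ W → x ∈ S → S ⊆ C := by
    intro S hS hSW hxS y hy
    rw [hC, Finset.mem_filter]
    exact ⟨hSW hy, hsub S hS x hxS y hy⟩
  obtain ⟨L, hL1, hL2, hL3⟩ := ih (W.erase x) (Finset.erase_ssubset hxW)
    (fun y hy => hWM y (Finset.mem_of_mem_erase hy))
  have hxL : ∀ G ∈ L, x ∉ G := by
    intro G hG hxG
    have := ((hL3 G).mp hG).2.1 hxG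
    exact (Finset.notMem_erase x W) this
  set D : Finset α := C.erase x with hDdef
  have hDM : D ∈ M := hM.2 C hCM D (Finset.erase_subset _ _)
  have hDW : D ⊆ W.erase x := Finset.erase_subset_erase x hCW
  have hDC : D ⊆ C := Finset.erase_subset _ _
  have hxD : ∀ y, y ∈ C → y ∈ D ∨ y = x := by
    intro y hy
    by_cases h : y = x
    · exact Or.inr h
    · exact Or.inl (Finset.mem_erase.mpr ⟨h, hy⟩)
  have hCfacet : ∀ G ∈ M, G ⊆ W → C ⊆ G → C = G := by
    intro G hG hGW hCG
    exact subset_antisymm hCG (hmax G hG hGW (hCG hxC))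
  have hSx : ∀ S, S ⊆ W → x ∉ S → S ⊆ W.erase x := by
    intro S hS hxS y hy
    exact Finset.mem_erase.mpr ⟨fun h => hxS (h ▸ hy), hS hy⟩
  by_cases hDL : D ∈ L
  · refine ⟨L.map (fun G => if G = D then C else G), RIPr_map hDC hxD L hL2 hxL hL1, ?_, ?_⟩
    · rw [List.nodup_map_iff_inj_on hL2]
      intro G hG G' hG' h
      by_cases h1 : G = D <;> by_cases h2 : G' = D
      · rw [h1, h2]
      · rw [if_pos h1, if_neg h2] at h
        exact absurd (h ▸ hxC) (hxL G' hG')
      · rw [if_neg h1, if_pos h2] at h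
        exact absurd (h ▸ hxC) (hxL G hG)
      · rwa [if_neg h1, if_neg h2] at h
    · intro S
      rw [List.mem_map]
      constructor
      · rintro ⟨G, hG, rfl⟩
        split_ifs with h
        · exact ⟨hCM, hCW, hCfacet⟩
        · obtain ⟨g1, g2, g3⟩ := (hL3 G).mp hG
          refine ⟨g1, g2.trans (Finset.erase_subset _ _), ?_⟩
          intro G' hG' hG'W hGG'
          by_cases hxG' : x ∈ G'
          · exfalso
            apply h
            apply g3 D hDM hDW
            intro y hy
            refine Finset.mem_erase.mpr ⟨fun hyx => hxL G hG (hyx ▸ hy), ?_⟩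
            exact hmax G' hG' hG'W hxG' (hGG' hy)
          · exact g3 G' hG' (hSx G' hG'W hxG') hGG'
      · rintro ⟨h1, h2, h3⟩
        by_cases hxS : x ∈ S
        · refine ⟨D, hDL, ?_⟩
          rw [if_pos rfl]
          exact (h3 C hCM hCW (hmax S h1 h2 hxS)).symm
        · have hSL : S ∈ L := by
            rw [hL3]
            refine ⟨h1, hSx S h2 hxS, ?_⟩
            intro G hG hGW hSG
            exact h3 G hG (hGW.trans (Finset.erase_subset _ _)) hSG
          refine ⟨S, hSL, ?_⟩
          rw [if_neg]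
          intro hSD
          have := h3 C hCM hCW (by rw [hSD]; exact hDC)
          rw [this] at hxS
          exact hxS hxC
  · -- D is a proper subset of a member of L
    have hex : ∃ G ∈ L, D ⊆ G := by
      -- take a maximal face inside `W.erase x` containing `D`
      have hfin : ((M.filter (fun S => S ⊆ W.erase x ∧ D ⊆ S))).Nonempty :=
        ⟨D, Finset.mem_filter.mpr ⟨hDM, hDW, subset_rfl⟩⟩
      obtain ⟨G, hG, hGmax⟩ := Finset.exists_max_image _ Finset.card hfin
      rw [Finset.mem_filter] at hG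
      refine ⟨G, ?_, hG.2.2⟩
      rw [hL3]
      refine ⟨hG.1, hG.2.1, ?_⟩
      intro G' hG' hG'W hGG'
      exact Finset.eq_of_subset_of_card_le hGG'
        (hGmax G' (Finset.mem_filter.mpr ⟨hG', hG'W, hG.2.2.trans hGG'⟩))
    obtain ⟨G₀, hG₀, hDG₀⟩ := hex
    refine ⟨C :: L, ⟨hL1, Or.inr ⟨G₀, hG₀, ?_⟩⟩, ?_, ?_⟩
    · intro y hy
      rw [Finset.mem_inter, mem_unionL] at hy
      obtain ⟨hyC, G', hG', hyG'⟩ := hy
      apply hDG₀
      refine Finset.mem_erase.mpr ⟨fun h => hxL G' hG' (h ▸ hyG'), hyC⟩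
    · rw [List.nodup_cons]
      exact ⟨fun h => hxL C h hxC, hL2⟩
    · intro S
      rw [List.mem_cons]
      constructor
      · rintro (rfl | hG)
        · exact ⟨hCM, hCW, hCfacet⟩
        · obtain ⟨g1, g2, g3⟩ := (hL3 S).mp hG
          refine ⟨g1, g2.trans (Finset.erase_subset _ _), ?_⟩
          intro G' hG' hG'W hGG'
          by_cases hxG' : x ∈ G'
          · exfalso
            apply hDL
            have : S = D := by
              apply g3 D hDM hDW
              intro y hy
              refine Finset.mem_erase.mpr ⟨fun hyx => hxL S hG (hyx ▸ hy), ?_⟩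
              exact hmax G' hG' hG'W hxG' (hGG' hy)
            rw [← this]; exact hG
          · exact g3 G' hG' (hSx G' hG'W hxG') hGG'
      · rintro ⟨h1, h2, h3⟩
        by_cases hxS : x ∈ S
        · left
          exact h3 C hCM hCW (hmax S h1 h2 hxS)
        · right
          rw [hL3]
          refine ⟨h1, hSx S h2 hxS, ?_⟩
          intro G hG hGW hSG
          exact h3 G hG (hGW.trans (Finset.erase_subset _ _)) hSG

/-- from a reversed list to an enumeration -/
lemma enum_of_list : ∀ L : List (Finset α), RIPr L → L.Nodup →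
    ∃ F : ℕ → Finset α, (∀ i, i < L.length → F i ∈ L) ∧ (∀ G ∈ L, ∃ i, i < L.length ∧ F i = G) ∧
      (∀ i j, i < L.length → j < L.length → F i = F j → i = j) ∧
      ∀ j, j < L.length → 0 < j → ∃ i, i < j ∧ ∀ x ∈ F j, (∃ l, l < j ∧ x ∈ F l) → x ∈ F i := by
  intro L
  induction L with
  | nil =>
    intro _ _
    exact ⟨fun _ => ∅, by simp, by simp, by simp, by simp⟩
  | cons F₀ L ih =>
    intro hrip hnd
    rw [List.nodup_cons] at hnd
    obtain ⟨F, h1, h2, h3, h4⟩ := ih hrip.1 hnd.2
    obtain ⟨F', e1, e2⟩ : ∃ F' : ℕ → Finset α, F' L.length = F₀ ∧ ∀ i, i < L.length → F' i = F i :=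
      ⟨fun i => if i = L.length then F₀ else F i, by simp, fun i hi => by simp; omega⟩
    refine ⟨F', ?_, ?_, ?_, ?_⟩
    · intro i hi
      simp only [List.length_cons] at hi
      rcases Nat.lt_succ_iff_lt_or_eq.mp hi with h | h
      · rw [e2 i h]
        exact List.mem_cons_of_mem _ (h1 i h)
      · rw [h, e1]; simp
    · intro G hG
      rcases List.mem_cons.mp hG with rfl | hG
      · exact ⟨L.length, by simp, e1⟩
      · obtain ⟨i, hi, rfl⟩ := h2 G hG
        exact ⟨i, by simp; omega, e2 i hi⟩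
    · intro i j hi hj hij
      simp only [List.length_cons] at hi hj
      rcases Nat.lt_succ_iff_lt_or_eq.mp hi with hi' | hi' <;>
      rcases Nat.lt_succ_iff_lt_or_eq.mp hj with hj' | hj'
      · rw [e2 i hi', e2 j hj'] at hij
        exact h3 i j hi' hj' hij
      · rw [hj', e1, e2 i hi'] at hij
        exact absurd (hij ▸ h1 i hi') hnd.1
      · rw [hi', e1, e2 j hj'] at hij
        exact absurd (hij ▸ h1 j hj') hnd.1
      · rw [hi', hj']
    · intro j hj hj0
      simp only [List.length_cons] at hj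
      rcases Nat.lt_succ_iff_lt_or_eq.mp hj with h | h
      · obtain ⟨i, hi, hi2⟩ := h4 j h hj0
        refine ⟨i, hi, ?_⟩
        intro x hx hex
        rw [e2 j h] at hx
        rw [e2 i (by omega)]
        apply hi2 x hx
        obtain ⟨l, hl, hxl⟩ := hex
        rw [e2 l (by omega)] at hxl
        exact ⟨l, hl, hxl⟩
      · rcases hrip.2 with hL | ⟨G, hG, hG2⟩
        · subst hL
          simp at h
          omega
        · obtain ⟨i, hi, rfl⟩ := h2 G hG
          refine ⟨i, by omega, ?_⟩
          intro x hx hex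
          rw [h, e1] at hx
          rw [e2 i hi]
          apply hG2
          rw [Finset.mem_inter, mem_unionL]
          refine ⟨hx, ?_⟩
          obtain ⟨l, hl, hxl⟩ := hex
          rw [e2 l (by omega)] at hxl
          exact ⟨F l, h1 l (by omega), hxl⟩

/-- a good scenario is Vorob'ev-regular -/
lemma regular_of_good [Fintype α] {M : Finset (Finset α)} (hM : IsScenario M)
    (hall : AllExtend M) : VorobevRegular M := by
  classical
  have helim : ∀ W : Finset α, (∀ x ∈ W, ({x} : Finset α) ∈ M) → W.Nonempty →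
      ∃ x ∈ W, W.filter (fun y => ({x, y} : Finset α) ∈ M) ∈ M := by
    intro W hW hne
    obtain ⟨x, hx, -, h⟩ := dirac hM hall W hW ∅ hM.1 (Finset.empty_ssubset.mpr hne)
    exact ⟨x, hx, h⟩
  set V : Finset α := univ.filter (fun x => ({x} : Finset α) ∈ M) with hV
  obtain ⟨L, h1, h2, h3⟩ := rip_of_elim hM helim V (by intro x hx; simpa [hV] using hx)
  have hSV : ∀ S ∈ M, S ⊆ V := by
    intro S hS x hx
    simp only [hV, Finset.mem_filter, Finset.mem_univ, true_and]
    exact hM.2 S hS _ (by simpa using hx)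
  have hfacet : ∀ S, S ∈ L ↔ IsFacet M S := by
    intro S
    rw [h3]
    constructor
    · rintro ⟨a, b, c⟩
      exact ⟨a, fun G hG hSG => c G hG (hSV G hG) hSG⟩
    · rintro ⟨a, b⟩
      exact ⟨a, hSV S a, fun G hG _ hSG => b G hG hSG⟩
  obtain ⟨F, f1, f2, f3, f4⟩ := enum_of_list L h1 h2
  refine ⟨L.length, fun i => F i, ?_, ?_, ?_⟩
  · intro i j hij
    exact Fin.ext (f3 i j i.2 j.2 hij)
  · intro S
    rw [← hfacet]
    constructor
    · intro hS
      obtain ⟨i, hi, hiS⟩ := f2 S hS
      exact ⟨⟨i, hi⟩, hiS⟩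
    · rintro ⟨j, rfl⟩
      exact f1 j j.2
  · intro j hj
    obtain ⟨i, hi, hi2⟩ := f4 j j.2 hj
    refine ⟨⟨i, by omega⟩, hi, ?_⟩
    intro x hx
    rw [Finset.mem_inter, Finset.mem_biUnion] at hx
    obtain ⟨hx1, l, hl, hxl⟩ := hx
    apply hi2 x hx1
    exact ⟨l, by simpa using hl, hxl⟩

/-- an enumeration gives a reversed list -/
lemma list_of_enum (F : ℕ → Finset α) (k : ℕ)
    (hinj : ∀ i j, i < k → j < k → F i = F j → i = j)
    (hrip : ∀ j, j < k → 0 < j → ∃ i, i < j ∧ ∀ x ∈ F j, (∃ l, l < j ∧ x ∈ F l) → x ∈ F i) :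
    ∀ m, m ≤ k → ∃ L : List (Finset α), RIPr L ∧ L.Nodup ∧ (∀ G, G ∈ L ↔ ∃ i, i < m ∧ F i = G) := by
  intro m
  induction m with
  | zero =>
    intro _
    exact ⟨[], trivial, List.nodup_nil, by simp⟩
  | succ m ih =>
    intro hm
    obtain ⟨L, h1, h2, h3⟩ := ih (by omega)
    refine ⟨F m :: L, ⟨h1, ?_⟩, ?_, ?_⟩
    · rcases Nat.eq_zero_or_pos m with h | h
      · left
        subst h
        apply List.eq_nil_iff_forall_not_mem.mpr
        intro G hG
        obtain ⟨i, hi, _⟩ := (h3 G).mp hG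
        omega
      · right
        obtain ⟨i, hi, hi2⟩ := hrip m (by omega) h
        refine ⟨F i, (h3 _).mpr ⟨i, hi, rfl⟩, ?_⟩
        intro x hx
        rw [Finset.mem_inter, mem_unionL] at hx
        obtain ⟨hx1, G, hG, hxG⟩ := hx
        obtain ⟨l, hl, rfl⟩ := (h3 G).mp hG
        exact hi2 x hx1 ⟨l, hl, hxG⟩
    · rw [List.nodup_cons]
      refine ⟨fun h => ?_, h2⟩
      obtain ⟨i, hi, hi2⟩ := (h3 _).mp h
      have := hinj i m (by omega) (by omega) hi2
      omega
    · intro G
      rw [List.mem_cons, h3]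
      constructor
      · rintro (rfl | ⟨i, hi, rfl⟩)
        · exact ⟨m, by omega, rfl⟩
        · exact ⟨i, by omega, rfl⟩
      · rintro ⟨i, hi, rfl⟩
        rcases Nat.lt_succ_iff_lt_or_eq.mp hi with h | h
        · right; exact ⟨i, h, rfl⟩
        · left; rw [h]

/-- sufficiency -/
theorem good_of_regular [Fintype α] {M : Finset (Finset α)} (hM : IsScenario M)
    (hreg : VorobevRegular M)
    (hcond : ∀ F G, IsFacet M F → IsFacet M G → F ≠ G → (F ∩ G).card ≤ 1 ∨ (F ∪ G).card ≤ 4) :
    AllExtend M := by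
  classical
  intro g hg
  obtain ⟨k, F, hinj, hfac, hrip⟩ := hreg
  have hex : ∀ S ∈ M, ∃ G, IsFacet M G ∧ S ⊆ G := by
    intro S hS
    have hfin : (M.filter (fun T => S ⊆ T)).Nonempty :=
      ⟨S, Finset.mem_filter.mpr ⟨hS, subset_rfl⟩⟩
    obtain ⟨G, hG, hGmax⟩ := Finset.exists_max_image _ Finset.card hfin
    rw [Finset.mem_filter] at hG
    refine ⟨G, ⟨hG.1, ?_⟩, hG.2⟩
    intro G' hG' hGG'
    exact Finset.eq_of_subset_of_card_le hGG'
      (hGmax G' (Finset.mem_filter.mpr ⟨hG', hG.2.trans hGG'⟩))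
  obtain ⟨L, h1, h2, h3⟩ := list_of_enum (fun i => if h : i < k then F ⟨i, h⟩ else ∅) k
    (by
      intro i j hi hj hij
      simp only [dif_pos hi, dif_pos hj] at hij
      have := hinj hij
      simpa using this)
    (by
      intro j hj hj0
      obtain ⟨i, hi, hi2⟩ := hrip ⟨j, hj⟩ hj0
      refine ⟨i, hi, ?_⟩
      intro x hx hex
      simp only [dif_pos hj] at hx
      simp only [i.2, dif_pos]
      apply hi2
      rw [Finset.mem_inter, Finset.mem_biUnion]
      refine ⟨hx, ?_⟩
      obtain ⟨l, hl, hxl⟩ := hex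
      have hlk : l < k := by omega
      simp only [dif_pos hlk] at hxl
      exact ⟨⟨l, hlk⟩, by simpa using hl, hxl⟩) k le_rfl
  have hL : ∀ G, G ∈ L ↔ IsFacet M G := by
    intro G
    rw [h3, hfac]
    constructor
    · rintro ⟨i, hi, h⟩
      rw [dif_pos hi] at h
      exact ⟨⟨i, hi⟩, h⟩
    · rintro ⟨i, h⟩
      refine ⟨i, i.2, ?_⟩
      rw [dif_pos i.2]
      exact h
  have hpoly : ∀ F ∈ L, PolyOn F g := by
    intro F hF
    have hFM := ((hL F).mp hF).1
    refine ⟨hg.empty, fun S hS => hg.nonneg S (hM.2 F hFM S hS),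
      fun S T hST hT => hg.mono S (hM.2 F hFM S (hST.trans hT)) T (hM.2 F hFM T hT) hST, ?_⟩
    intro S T hS hT
    exact hg.submod S (hM.2 F hFM S hS) T (hM.2 F hFM T hT) (hM.2 F hFM _ (Finset.union_subset hS hT))
  have hLne : L ≠ [] := by
    obtain ⟨G, hG, _⟩ := hex ∅ hM.1
    intro h
    have := (hL G).mpr hG
    rw [h] at this
    simp at this
  obtain ⟨f, hf, hgood⟩ := glue_list g L h1 h2 hpoly
    (fun A hA B hB hAB => ((hL A).mp hA).2 B ((hL B).mp hB).1 hAB)
    (fun A hA B hB hAB => hcond A B ((hL A).mp hA) ((hL B).mp hB) hAB) hLne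
  refine ⟨fun S => f (emb S), hf.comap emb emb_empty emb_union emb_inter, ?_⟩
  intro S hS
  obtain ⟨G, hG, hSG⟩ := hex S hS
  exact (hgood G ((hL G).mpr hG)).1 S hSG

/-- rank function of the five-element gadget -/
def G5 (x1 x2 x3 x4 x5 : Bool) : ℕ :=
  if x5 then 1 + x1.toNat + x2.toNat + x3.toNat
  else if !x1 && !x2 && !x3 && !x4 then 0
  else if !x1 && !x2 && x3 && x4 then 4
  else min 4 (1 + x1.toNat + x2.toNat + x3.toNat + x4.toNat)

lemma G5_submod : ∀ a1 a2 a3 a4 a5 b1 b2 b3 b4 b5 : Bool, ((a4 || b4) && (a5 || b5)) = false →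
    G5 (a1 || b1) (a2 || b2) (a3 || b3) (a4 || b4) (a5 || b5) +
      G5 (a1 && b1) (a2 && b2) (a3 && b3) (a4 && b4) (a5 && b5) ≤
      G5 a1 a2 a3 a4 a5 + G5 b1 b2 b3 b4 b5 := by
  decide

lemma G5_mono : ∀ a1 a2 a3 a4 a5 b1 b2 b3 b4 b5 : Bool, (b4 && b5) = false →
    (a1 ≤ b1) → (a2 ≤ b2) → (a3 ≤ b3) → (a4 ≤ b4) → (a5 ≤ b5) →
      G5 a1 a2 a3 a4 a5 ≤ G5 b1 b2 b3 b4 b5 := by
  decide

/-- the five-element gadget: in a good scenario, if `{v₁,v₂,v₃,v₄}` and `{v₁,v₂,p}` are faces
then `{v₄,p}` is a face. -/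
lemma gadget5 {M : Finset (Finset α)} (hM : IsScenario M) (hall : AllExtend M)
    {v1 v2 v3 v4 p : α} (h12 : v1 ≠ v2) (h13 : v1 ≠ v3) (h14 : v1 ≠ v4) (h23 : v2 ≠ v3)
    (h24 : v2 ≠ v4) (h34 : v3 ≠ v4) (h1p : v1 ≠ p) (h2p : v2 ≠ p) (h3p : v3 ≠ p) (h4p : v4 ≠ p)
    (hF : ({v1, v2, v3, v4} : Finset α) ∈ M) (hG : ({v1, v2, p} : Finset α) ∈ M) :
    ({v4, p} : Finset α) ∈ M := by
  by_contra hnot
  set g : Finset α → ℝ := fun S =>
    ((G5 (decide (v1 ∈ S)) (decide (v2 ∈ S)) (decide (v3 ∈ S)) (decide (v4 ∈ S))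
      (decide (p ∈ S)) : ℕ) : ℝ) with hg
  have hno : ∀ S ∈ M, ((decide (v4 ∈ S)) && (decide (p ∈ S))) = false := by
    intro S hS
    by_contra h
    rw [Bool.not_eq_false, Bool.and_eq_true, decide_eq_true_iff, decide_eq_true_iff] at h
    exact hnot (hM.2 S hS _ (by simp [Finset.insert_subset_iff, h.1, h.2]))
  have hpart : IsPartialPolymatroid M g := by
    refine ⟨?_, ?_, ?_, ?_⟩
    · simp [hg, G5]
    · intro S _; simp only [hg]; positivity
    · intro S hS T hT hST
      simp only [hg]
      have : G5 (decide (v1 ∈ S)) (decide (v2 ∈ S)) (decide (v3 ∈ S)) (decide (v4 ∈ S))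
          (decide (p ∈ S)) ≤ G5 (decide (v1 ∈ T)) (decide (v2 ∈ T)) (decide (v3 ∈ T))
          (decide (v4 ∈ T)) (decide (p ∈ T)) := by
        have hle : ∀ x : α, decide (x ∈ S) ≤ decide (x ∈ T) := by
          intro x
          rw [Bool.le_iff_imp]
          intro h
          rw [decide_eq_true_iff] at h ⊢
          exact hST h
        exact G5_mono _ _ _ _ _ _ _ _ _ _ (hno T hT) (hle _) (hle _) (hle _) (hle _) (hle _)
      exact_mod_cast this
    · intro S hS T hT hST
      simp only [hg]
      have hu : ∀ x : α, decide (x ∈ S ∪ T) = (decide (x ∈ S) || decide (x ∈ T)) := by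
        intro x; rw [← Bool.decide_or]; congr 1; rw [Finset.mem_union]
      have hi : ∀ x : α, decide (x ∈ S ∩ T) = (decide (x ∈ S) && decide (x ∈ T)) := by
        intro x; rw [← Bool.decide_and]; congr 1; rw [Finset.mem_inter]
      have h0 := hno _ hST
      simp only [hu] at h0
      have := G5_submod (decide (v1 ∈ S)) (decide (v2 ∈ S)) (decide (v3 ∈ S)) (decide (v4 ∈ S))
        (decide (p ∈ S)) (decide (v1 ∈ T)) (decide (v2 ∈ T)) (decide (v3 ∈ T)) (decide (v4 ∈ T))
        (decide (p ∈ T)) h0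
      simp only [hu, hi]
      exact_mod_cast this
  obtain ⟨f, hf, hfg⟩ := hall g hpart
  have hMF : ∀ S : Finset α, S ⊆ {v1, v2, v3, v4} → f S = g S := fun S hS =>
    hfg S (hM.2 _ hF S hS)
  have hMG : ∀ S : Finset α, S ⊆ {v1, v2, p} → f S = g S := fun S hS =>
    hfg S (hM.2 _ hG S hS)
  have gval : ∀ (S : Finset α) (b1 b2 b3 b4 b5 : Bool) (n : ℕ), decide (v1 ∈ S) = b1 →
      decide (v2 ∈ S) = b2 → decide (v3 ∈ S) = b3 → decide (v4 ∈ S) = b4 → decide (p ∈ S) = b5 →
      G5 b1 b2 b3 b4 b5 = n → g S = n := by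
    rintro S b1 b2 b3 b4 b5 n rfl rfl rfl rfl rfl rfl
    rfl
  have f1 : f {v1} = 2 := by
    rw [hMF _ (by simp)]
    exact_mod_cast gval _ true false false false false 2 (by simp [h12, h13, h14, h23, h24, h34, h1p, h2p, h3p, h4p, h12.symm, h13.symm, h14.symm, h23.symm, h24.symm, h34.symm, h1p.symm, h2p.symm, h3p.symm, h4p.symm]) (by simp [h12, h13, h14, h23, h24, h34, h1p, h2p, h3p, h4p, h12.symm, h13.symm, h14.symm, h23.symm, h24.symm, h34.symm, h1p.symm, h2p.symm, h3p.symm, h4p.symm]) (by simp [h12, h13, h14, h23, h24, h34, h1p, h2p, h3p, h4p, h12.symm, h13.symm, h14.symm, h23.symm, h24.symm, h34.symm, h1p.symm, h2p.symm, h3p.symm, h4p.symm])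
      (by simp [h12, h13, h14, h23, h24, h34, h1p, h2p, h3p, h4p, h12.symm, h13.symm, h14.symm, h23.symm, h24.symm, h34.symm, h1p.symm, h2p.symm, h3p.symm, h4p.symm]) (by simp [h12, h13, h14, h23, h24, h34, h1p, h2p, h3p, h4p, h12.symm, h13.symm, h14.symm, h23.symm, h24.symm, h34.symm, h1p.symm, h2p.symm, h3p.symm, h4p.symm]) rfl
  have f2 : f {v2} = 2 := by
    rw [hMF _ (by simp)]
    exact_mod_cast gval _ false true false false false 2 (by simp [h12, h13, h14, h23, h24, h34, h1p, h2p, h3p, h4p, h12.symm, h13.symm, h14.symm, h23.symm, h24.symm, h34.symm, h1p.symm, h2p.symm, h3p.symm, h4p.symm]) (by simp [h12, h13, h14, h23, h24, h34, h1p, h2p, h3p, h4p, h12.symm, h13.symm, h14.symm, h23.symm, h24.symm, h34.symm, h1p.symm, h2p.symm, h3p.symm, h4p.symm]) (by simp [h12, h13, h14, h23, h24, h34, h1p, h2p, h3p, h4p, h12.symm, h13.symm, h14.symm, h23.symm, h24.symm, h34.symm, h1p.symm, h2p.symm, h3p.symm, h4p.symm])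
      (by simp [h12, h13, h14, h23, h24, h34, h1p, h2p, h3p, h4p, h12.symm, h13.symm, h14.symm, h23.symm, h24.symm, h34.symm, h1p.symm, h2p.symm, h3p.symm, h4p.symm]) (by simp [h12, h13, h14, h23, h24, h34, h1p, h2p, h3p, h4p, h12.symm, h13.symm, h14.symm, h23.symm, h24.symm, h34.symm, h1p.symm, h2p.symm, h3p.symm, h4p.symm]) rfl
  have f3 : f {v3} = 2 := by
    rw [hMF _ (by simp)]
    exact_mod_cast gval _ false false true false false 2 (by simp [h12, h13, h14, h23, h24, h34, h1p, h2p, h3p, h4p, h12.symm, h13.symm, h14.symm, h23.symm, h24.symm, h34.symm, h1p.symm, h2p.symm, h3p.symm, h4p.symm]) (by simp [h12, h13, h14, h23, h24, h34, h1p, h2p, h3p, h4p, h12.symm, h13.symm, h14.symm, h23.symm, h24.symm, h34.symm, h1p.symm, h2p.symm, h3p.symm, h4p.symm]) (by simp [h12, h13, h14, h23, h24, h34, h1p, h2p, h3p, h4p, h12.symm, h13.symm, h14.symm, h23.symm, h24.symm, h34.symm, h1p.symm, h2p.symm, h3p.symm, h4p.symm])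
      (by simp [h12, h13, h14, h23, h24, h34, h1p, h2p, h3p, h4p, h12.symm, h13.symm, h14.symm, h23.symm, h24.symm, h34.symm, h1p.symm, h2p.symm, h3p.symm, h4p.symm]) (by simp [h12, h13, h14, h23, h24, h34, h1p, h2p, h3p, h4p, h12.symm, h13.symm, h14.symm, h23.symm, h24.symm, h34.symm, h1p.symm, h2p.symm, h3p.symm, h4p.symm]) rfl
  have f4 : f {v4} = 2 := by
    rw [hMF _ (by simp)]
    exact_mod_cast gval _ false false false true false 2 (by simp [h12, h13, h14, h23, h24, h34, h1p, h2p, h3p, h4p, h12.symm, h13.symm, h14.symm, h23.symm, h24.symm, h34.symm, h1p.symm, h2p.symm, h3p.symm, h4p.symm]) (by simp [h12, h13, h14, h23, h24, h34, h1p, h2p, h3p, h4p, h12.symm, h13.symm, h14.symm, h23.symm, h24.symm, h34.symm, h1p.symm, h2p.symm, h3p.symm, h4p.symm]) (by simp [h12, h13, h14, h23, h24, h34, h1p, h2p, h3p, h4p, h12.symm, h13.symm, h14.symm, h23.symm, h24.symm, h34.symm, h1p.symm, h2p.symm, h3p.symm, h4p.symm])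
      (by simp [h12, h13, h14, h23, h24, h34, h1p, h2p, h3p, h4p, h12.symm, h13.symm, h14.symm, h23.symm, h24.symm, h34.symm, h1p.symm, h2p.symm, h3p.symm, h4p.symm]) (by simp [h12, h13, h14, h23, h24, h34, h1p, h2p, h3p, h4p, h12.symm, h13.symm, h14.symm, h23.symm, h24.symm, h34.symm, h1p.symm, h2p.symm, h3p.symm, h4p.symm]) rfl
  have fp : f {p} = 1 := by
    rw [hMG _ (by simp)]
    exact_mod_cast gval _ false false false false true 1 (by simp [h12, h13, h14, h23, h24, h34, h1p, h2p, h3p, h4p, h12.symm, h13.symm, h14.symm, h23.symm, h24.symm, h34.symm, h1p.symm, h2p.symm, h3p.symm, h4p.symm]) (by simp [h12, h13, h14, h23, h24, h34, h1p, h2p, h3p, h4p, h12.symm, h13.symm, h14.symm, h23.symm, h24.symm, h34.symm, h1p.symm, h2p.symm, h3p.symm, h4p.symm]) (by simp [h12, h13, h14, h23, h24, h34, h1p, h2p, h3p, h4p, h12.symm, h13.symm, h14.symm, h23.symm, h24.symm, h34.symm, h1p.symm, h2p.symm, h3p.symm, h4p.symm])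
      (by simp [h12, h13, h14, h23, h24, h34, h1p, h2p, h3p, h4p, h12.symm, h13.symm, h14.symm, h23.symm, h24.symm, h34.symm, h1p.symm, h2p.symm, h3p.symm, h4p.symm]) (by simp [h12, h13, h14, h23, h24, h34, h1p, h2p, h3p, h4p, h12.symm, h13.symm, h14.symm, h23.symm, h24.symm, h34.symm, h1p.symm, h2p.symm, h3p.symm, h4p.symm]) rfl
  have f1p : f {v1, p} = 2 := by
    rw [hMG _ (by intro x; simp only [Finset.mem_insert, Finset.mem_singleton]; tauto)]
    exact_mod_cast gval _ true false false false true 2 (by simp [h12, h13, h14, h23, h24, h34, h1p, h2p, h3p, h4p, h12.symm, h13.symm, h14.symm, h23.symm, h24.symm, h34.symm, h1p.symm, h2p.symm, h3p.symm, h4p.symm]) (by simp [h12, h13, h14, h23, h24, h34, h1p, h2p, h3p, h4p, h12.symm, h13.symm, h14.symm, h23.symm, h24.symm, h34.symm, h1p.symm, h2p.symm, h3p.symm, h4p.symm]) (by simp [h12, h13, h14, h23, h24, h34, h1p, h2p, h3p, h4p, h12.symm, h13.symm, h14.symm, h23.symm, h24.symm, h34.symm, h1p.symm, h2p.symm, h3p.symm, h4p.symm])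
      (by simp [h12, h13, h14, h23, h24, h34, h1p, h2p, h3p, h4p, h12.symm, h13.symm, h14.symm, h23.symm, h24.symm, h34.symm, h1p.symm, h2p.symm, h3p.symm, h4p.symm]) (by simp [h12, h13, h14, h23, h24, h34, h1p, h2p, h3p, h4p, h12.symm, h13.symm, h14.symm, h23.symm, h24.symm, h34.symm, h1p.symm, h2p.symm, h3p.symm, h4p.symm]) rfl
  have f2p : f {v2, p} = 2 := by
    rw [hMG _ (by intro x; simp only [Finset.mem_insert, Finset.mem_singleton]; tauto)]
    exact_mod_cast gval _ false true false false true 2 (by simp [h12, h13, h14, h23, h24, h34, h1p, h2p, h3p, h4p, h12.symm, h13.symm, h14.symm, h23.symm, h24.symm, h34.symm, h1p.symm, h2p.symm, h3p.symm, h4p.symm]) (by simp [h12, h13, h14, h23, h24, h34, h1p, h2p, h3p, h4p, h12.symm, h13.symm, h14.symm, h23.symm, h24.symm, h34.symm, h1p.symm, h2p.symm, h3p.symm, h4p.symm]) (by simp [h12, h13, h14, h23, h24, h34, h1p, h2p, h3p, h4p, h12.symm, h13.symm, h14.symm, h23.symm, h24.symm, h34.symm, h1p.symm, h2p.symm, h3p.symm, h4p.symm])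
      (by simp [h12, h13, h14, h23, h24, h34, h1p, h2p, h3p, h4p, h12.symm, h13.symm, h14.symm, h23.symm, h24.symm, h34.symm, h1p.symm, h2p.symm, h3p.symm, h4p.symm]) (by simp [h12, h13, h14, h23, h24, h34, h1p, h2p, h3p, h4p, h12.symm, h13.symm, h14.symm, h23.symm, h24.symm, h34.symm, h1p.symm, h2p.symm, h3p.symm, h4p.symm]) rfl
  have f13 : f {v1, v3} = 3 := by
    rw [hMF _ (by intro x; simp only [Finset.mem_insert, Finset.mem_singleton]; tauto)]
    exact_mod_cast gval _ true false true false false 3 (by simp [h12, h13, h14, h23, h24, h34, h1p, h2p, h3p, h4p, h12.symm, h13.symm, h14.symm, h23.symm, h24.symm, h34.symm, h1p.symm, h2p.symm, h3p.symm, h4p.symm]) (by simp [h12, h13, h14, h23, h24, h34, h1p, h2p, h3p, h4p, h12.symm, h13.symm, h14.symm, h23.symm, h24.symm, h34.symm, h1p.symm, h2p.symm, h3p.symm, h4p.symm]) (by simp [h12, h13, h14, h23, h24, h34, h1p, h2p, h3p, h4p, h12.symm, h13.symm, h14.symm, h23.symm, h24.symm, h34.symm, h1p.symm, h2p.symm, h3p.symm, h4p.symm])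
      (by simp [h12, h13, h14, h23, h24, h34, h1p, h2p, h3p, h4p, h12.symm, h13.symm, h14.symm, h23.symm, h24.symm, h34.symm, h1p.symm, h2p.symm, h3p.symm, h4p.symm]) (by simp [h12, h13, h14, h23, h24, h34, h1p, h2p, h3p, h4p, h12.symm, h13.symm, h14.symm, h23.symm, h24.symm, h34.symm, h1p.symm, h2p.symm, h3p.symm, h4p.symm]) rfl
  have f23 : f {v2, v3} = 3 := by
    rw [hMF _ (by intro x; simp only [Finset.mem_insert, Finset.mem_singleton]; tauto)]
    exact_mod_cast gval _ false true true false false 3 (by simp [h12, h13, h14, h23, h24, h34, h1p, h2p, h3p, h4p, h12.symm, h13.symm, h14.symm, h23.symm, h24.symm, h34.symm, h1p.symm, h2p.symm, h3p.symm, h4p.symm]) (by simp [h12, h13, h14, h23, h24, h34, h1p, h2p, h3p, h4p, h12.symm, h13.symm, h14.symm, h23.symm, h24.symm, h34.symm, h1p.symm, h2p.symm, h3p.symm, h4p.symm]) (by simp [h12, h13, h14, h23, h24, h34, h1p, h2p, h3p, h4p, h12.symm, h13.symm, h14.symm, h23.symm, h24.symm, h34.symm, h1p.symm, h2p.symm, h3p.symm, h4p.symm])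
      (by simp [h12, h13, h14, h23, h24, h34, h1p, h2p, h3p, h4p, h12.symm, h13.symm, h14.symm, h23.symm, h24.symm, h34.symm, h1p.symm, h2p.symm, h3p.symm, h4p.symm]) (by simp [h12, h13, h14, h23, h24, h34, h1p, h2p, h3p, h4p, h12.symm, h13.symm, h14.symm, h23.symm, h24.symm, h34.symm, h1p.symm, h2p.symm, h3p.symm, h4p.symm]) rfl
  have f14 : f {v1, v4} = 3 := by
    rw [hMF _ (by intro x; simp only [Finset.mem_insert, Finset.mem_singleton]; tauto)]
    exact_mod_cast gval _ true false false true false 3 (by simp [h12, h13, h14, h23, h24, h34, h1p, h2p, h3p, h4p, h12.symm, h13.symm, h14.symm, h23.symm, h24.symm, h34.symm, h1p.symm, h2p.symm, h3p.symm, h4p.symm]) (by simp [h12, h13, h14, h23, h24, h34, h1p, h2p, h3p, h4p, h12.symm, h13.symm, h14.symm, h23.symm, h24.symm, h34.symm, h1p.symm, h2p.symm, h3p.symm, h4p.symm]) (by simp [h12, h13, h14, h23, h24, h34, h1p, h2p, h3p, h4p, h12.symm, h13.symm, h14.symm, h23.symm, h24.symm, h34.symm, h1p.symm, h2p.symm, h3p.symm, h4p.symm])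
      (by simp [h12, h13, h14, h23, h24, h34, h1p, h2p, h3p, h4p, h12.symm, h13.symm, h14.symm, h23.symm, h24.symm, h34.symm, h1p.symm, h2p.symm, h3p.symm, h4p.symm]) (by simp [h12, h13, h14, h23, h24, h34, h1p, h2p, h3p, h4p, h12.symm, h13.symm, h14.symm, h23.symm, h24.symm, h34.symm, h1p.symm, h2p.symm, h3p.symm, h4p.symm]) rfl
  have f24 : f {v2, v4} = 3 := by
    rw [hMF _ (by intro x; simp only [Finset.mem_insert, Finset.mem_singleton]; tauto)]
    exact_mod_cast gval _ false true false true false 3 (by simp [h12, h13, h14, h23, h24, h34, h1p, h2p, h3p, h4p, h12.symm, h13.symm, h14.symm, h23.symm, h24.symm, h34.symm, h1p.symm, h2p.symm, h3p.symm, h4p.symm]) (by simp [h12, h13, h14, h23, h24, h34, h1p, h2p, h3p, h4p, h12.symm, h13.symm, h14.symm, h23.symm, h24.symm, h34.symm, h1p.symm, h2p.symm, h3p.symm, h4p.symm]) (by simp [h12, h13, h14, h23, h24, h34, h1p, h2p, h3p, h4p, h12.symm, h13.symm, h14.symm, h23.symm, h24.symm, h34.symm, h1p.symm, h2p.symm, h3p.symm, h4p.symm])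
      (by simp [h12, h13, h14, h23, h24, h34, h1p, h2p, h3p, h4p, h12.symm, h13.symm, h14.symm, h23.symm, h24.symm, h34.symm, h1p.symm, h2p.symm, h3p.symm, h4p.symm]) (by simp [h12, h13, h14, h23, h24, h34, h1p, h2p, h3p, h4p, h12.symm, h13.symm, h14.symm, h23.symm, h24.symm, h34.symm, h1p.symm, h2p.symm, h3p.symm, h4p.symm]) rfl
  have f34 : f {v3, v4} = 4 := by
    rw [hMF _ (by intro x; simp only [Finset.mem_insert, Finset.mem_singleton]; tauto)]
    exact_mod_cast gval _ false false true true false 4 (by simp [h12, h13, h14, h23, h24, h34, h1p, h2p, h3p, h4p, h12.symm, h13.symm, h14.symm, h23.symm, h24.symm, h34.symm, h1p.symm, h2p.symm, h3p.symm, h4p.symm]) (by simp [h12, h13, h14, h23, h24, h34, h1p, h2p, h3p, h4p, h12.symm, h13.symm, h14.symm, h23.symm, h24.symm, h34.symm, h1p.symm, h2p.symm, h3p.symm, h4p.symm]) (by simp [h12, h13, h14, h23, h24, h34, h1p, h2p, h3p, h4p, h12.symm, h13.symm, h14.symm, h23.symm, h24.symm, h34.symm, h1p.symm, h2p.symm, h3p.symm, h4p.symm])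
      (by simp [h12, h13, h14, h23, h24, h34, h1p, h2p, h3p, h4p, h12.symm, h13.symm, h14.symm, h23.symm, h24.symm, h34.symm, h1p.symm, h2p.symm, h3p.symm, h4p.symm]) (by simp [h12, h13, h14, h23, h24, h34, h1p, h2p, h3p, h4p, h12.symm, h13.symm, h14.symm, h23.symm, h24.symm, h34.symm, h1p.symm, h2p.symm, h3p.symm, h4p.symm]) rfl
  have f123 : f {v1, v2, v3} = 4 := by
    rw [hMF _ (by intro x; simp only [Finset.mem_insert, Finset.mem_singleton]; tauto)]
    exact_mod_cast gval _ true true true false false 4 (by simp [h12, h13, h14, h23, h24, h34, h1p, h2p, h3p, h4p, h12.symm, h13.symm, h14.symm, h23.symm, h24.symm, h34.symm, h1p.symm, h2p.symm, h3p.symm, h4p.symm]) (by simp [h12, h13, h14, h23, h24, h34, h1p, h2p, h3p, h4p, h12.symm, h13.symm, h14.symm, h23.symm, h24.symm, h34.symm, h1p.symm, h2p.symm, h3p.symm, h4p.symm]) (by simp [h12, h13, h14, h23, h24, h34, h1p, h2p, h3p, h4p, h12.symm, h13.symm, h14.symm, h23.symm, h24.symm, h34.symm, h1p.symm, h2p.symm, h3p.symm, h4p.symm])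
      (by simp [h12, h13, h14, h23, h24, h34, h1p, h2p, h3p, h4p, h12.symm, h13.symm, h14.symm, h23.symm, h24.symm, h34.symm, h1p.symm, h2p.symm, h3p.symm, h4p.symm]) (by simp [h12, h13, h14, h23, h24, h34, h1p, h2p, h3p, h4p, h12.symm, h13.symm, h14.symm, h23.symm, h24.symm, h34.symm, h1p.symm, h2p.symm, h3p.symm, h4p.symm]) rfl
  have f124 : f {v1, v2, v4} = 4 := by
    rw [hMF _ (by intro x; simp only [Finset.mem_insert, Finset.mem_singleton]; tauto)]
    exact_mod_cast gval _ true true false true false 4 (by simp [h12, h13, h14, h23, h24, h34, h1p, h2p, h3p, h4p, h12.symm, h13.symm, h14.symm, h23.symm, h24.symm, h34.symm, h1p.symm, h2p.symm, h3p.symm, h4p.symm]) (by simp [h12, h13, h14, h23, h24, h34, h1p, h2p, h3p, h4p, h12.symm, h13.symm, h14.symm, h23.symm, h24.symm, h34.symm, h1p.symm, h2p.symm, h3p.symm, h4p.symm]) (by simp [h12, h13, h14, h23, h24, h34, h1p, h2p, h3p, h4p, h12.symm, h13.symm, h14.symm, h23.symm, h24.symm, h34.symm, h1p.symm, h2p.symm, h3p.symm, h4p.symm])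
      (by simp [h12, h13, h14, h23, h24, h34, h1p, h2p, h3p, h4p, h12.symm, h13.symm, h14.symm, h23.symm, h24.symm, h34.symm, h1p.symm, h2p.symm, h3p.symm, h4p.symm]) (by simp [h12, h13, h14, h23, h24, h34, h1p, h2p, h3p, h4p, h12.symm, h13.symm, h14.symm, h23.symm, h24.symm, h34.symm, h1p.symm, h2p.symm, h3p.symm, h4p.symm]) rfl
  have i1 := hf.sub4 (U := {v1, v3, p}) (I := {v1}) (A := {v1, v3}) (B := {v1, p})
    (by intro x; simp only [Finset.mem_insert, Finset.mem_singleton, Finset.mem_union]; tauto)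
    (by intro x; simp only [Finset.mem_insert, Finset.mem_singleton, Finset.mem_inter]; tauto)
  have i2 := hf.sub4 (U := {v2, v3, p}) (I := {v2}) (A := {v2, v3}) (B := {v2, p})
    (by intro x; simp only [Finset.mem_insert, Finset.mem_singleton, Finset.mem_union]; tauto)
    (by intro x; simp only [Finset.mem_insert, Finset.mem_singleton, Finset.mem_inter]; tauto)
  have i3 := hf.sub4 (U := {v1, v2, v3}) (I := {v3, p}) (A := {v1, v3, p}) (B := {v2, v3, p})
    (by intro x; simp only [Finset.mem_insert, Finset.mem_singleton, Finset.mem_union]; tauto)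
    (by intro x; simp only [Finset.mem_insert, Finset.mem_singleton, Finset.mem_inter]; tauto)
  have i4 := hf.sub4 (U := {v1, v4, p}) (I := {v1}) (A := {v1, v4}) (B := {v1, p})
    (by intro x; simp only [Finset.mem_insert, Finset.mem_singleton, Finset.mem_union]; tauto)
    (by intro x; simp only [Finset.mem_insert, Finset.mem_singleton, Finset.mem_inter]; tauto)
  have i5 := hf.sub4 (U := {v2, v4, p}) (I := {v2}) (A := {v2, v4}) (B := {v2, p})
    (by intro x; simp only [Finset.mem_insert, Finset.mem_singleton, Finset.mem_union]; tauto)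
    (by intro x; simp only [Finset.mem_insert, Finset.mem_singleton, Finset.mem_inter]; tauto)
  have i6 := hf.sub4 (U := {v1, v2, v4}) (I := {v4, p}) (A := {v1, v4, p}) (B := {v2, v4, p})
    (by intro x; simp only [Finset.mem_insert, Finset.mem_singleton, Finset.mem_union]; tauto)
    (by intro x; simp only [Finset.mem_insert, Finset.mem_singleton, Finset.mem_inter]; tauto)
  have i7 := hf.sub4 (U := {v3, v4}) (I := {p}) (A := {v3, p}) (B := {v4, p})
    (by intro x; simp only [Finset.mem_insert, Finset.mem_singleton, Finset.mem_union]; tauto)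
    (by intro x; simp only [Finset.mem_insert, Finset.mem_singleton, Finset.mem_inter]; tauto)
  linarith

lemma cond_aux {M : Finset (Finset α)} (hM : IsScenario M) (hall : AllExtend M)
    {F G : Finset α} (hF : IsFacet M F) (hG : IsFacet M G) (hFG : F ≠ G)
    (h2 : 2 ≤ (F ∩ G).card) (h4 : 4 ≤ F.card) : False := by
  have hsub : ∀ S ∈ M, ∀ x ∈ S, ∀ y ∈ S, ({x, y} : Finset α) ∈ M := by
    intro S hS x hx y hy
    exact hM.2 S hS _ (by simp [Finset.insert_subset_iff, hx, hy])
  obtain ⟨i, hi⟩ : (F ∩ G).Nonempty := Finset.card_pos.mp (by omega)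
  obtain ⟨j, hj⟩ : ((F ∩ G).erase i).Nonempty :=
    Finset.card_pos.mp (by rw [Finset.card_erase_of_mem hi]; omega)
  rw [Finset.mem_erase, Finset.mem_inter] at hj
  rw [Finset.mem_inter] at hi
  have hnot : ¬ G ⊆ F := fun h => hFG (hG.2 F hF.1 h).symm
  obtain ⟨p, hpG, hpF⟩ := Finset.not_subset.mp hnot
  have hpi : p ≠ i := fun h => hpF (h ▸ hi.1)
  have hpj : p ≠ j := fun h => hpF (h ▸ hj.2.1)
  have hGp : ({i, j, p} : Finset α) ∈ M :=
    hM.2 G hG.1 _ (by simp [Finset.insert_subset_iff, hi.2, hj.2.2, hpG])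
  have hadj : ∀ v ∈ F, ({v, p} : Finset α) ∈ M := by
    intro v hv
    by_cases hvi : v = i
    · exact hsub G hG.1 v (hvi ▸ hi.2) p hpG
    by_cases hvj : v = j
    · exact hsub G hG.1 v (hvj ▸ hj.2.2) p hpG
    obtain ⟨w, hw⟩ : (((F.erase i).erase j).erase v).Nonempty := by
      apply Finset.card_pos.mp
      rw [Finset.card_erase_of_mem, Finset.card_erase_of_mem, Finset.card_erase_of_mem hi.1]
      · omega
      · exact Finset.mem_erase.mpr ⟨hj.1, hj.2.1⟩
      · exact Finset.mem_erase.mpr ⟨hvj, Finset.mem_erase.mpr ⟨hvi, hv⟩⟩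
    simp only [Finset.mem_erase] at hw
    have hvp : v ≠ p := fun h => hpF (h ▸ hv)
    have hwp : w ≠ p := fun h => hpF (h ▸ hw.2.2.2)
    refine gadget5 hM hall (v1 := i) (v2 := j) (v3 := w) (v4 := v) (p := p) hj.1.symm
      hw.2.2.1.symm (Ne.symm hvi) hw.2.1.symm (Ne.symm hvj) hw.1 hpi.symm hpj.symm hwp hvp ?_ hGp
    exact hM.2 F hF.1 _ (by simp [Finset.insert_subset_iff, hi.1, hj.2.1, hv, hw.2.2.2])
  have hins : insert p F ∈ M := by
    apply conformal hM hall
    intro x hx y hy
    rcases Finset.mem_insert.mp hx with ex | ex <;> rcases Finset.mem_insert.mp hy with ey | ey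
    · rw [ex, ey]; exact hsub G hG.1 _ hpG _ hpG
    · rw [ex, Finset.pair_comm]; exact hadj y ey
    · rw [ey]; exact hadj x ex
    · exact hsub F hF.1 x ex y ey
  have := hF.2 _ hins (Finset.subset_insert _ _)
  exact hpF (by rw [this]; exact Finset.mem_insert_self _ _)

lemma cond_of_good {M : Finset (Finset α)} (hM : IsScenario M) (hall : AllExtend M) :
    ∀ F G, IsFacet M F → IsFacet M G → F ≠ G → (F ∩ G).card ≤ 1 ∨ (F ∪ G).card ≤ 4 := by
  intro F G hF hG hFG
  by_contra h
  push Not at h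
  have hsum := Finset.card_union_add_card_inter F G
  have h7 : 4 ≤ F.card ∨ 4 ≤ G.card := by omega
  rcases h7 with h7 | h7
  · exact cond_aux hM hall hF hG hFG (by omega) h7
  · exact cond_aux hM hall hG hF hFG.symm (by rw [Finset.inter_comm]; omega) h7

theorem characterization [Fintype α] {M : Finset (Finset α)} (hM : IsScenario M) :
    AllExtend M ↔ (VorobevRegular M ∧
      ∀ F G, IsFacet M F → IsFacet M G → F ≠ G → (F ∩ G).card ≤ 1 ∨ (F ∪ G).card ≤ 4) :=
  ⟨fun h => ⟨regular_of_good hM h, cond_of_good hM h⟩, fun h => good_of_regular hM h.1 h.2⟩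

end Pool.Agent.MarginalPolymatroid
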